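import Mathlib

set_option autoImplicit false
set_option linter.unusedSimpArgs false
set_option linter.unreachableTactic false
set_option linter.unusedTactic false
set_option linter.unnecessarySeqFocus false

namespace Pool.Agent.KS6_1.Dual

open Module

/-- The space `ℝ^d`. -/
abbrev Sp (d : ℕ) : Type := Fin d → ℝ

/-- `F` is a face of the convex polytope `P`: a convex extreme subset of `P`. The empty set and
`P` itself are faces. -/
def IsFace {d : ℕ} (P F : Set (Sp d)) : Prop := Convex ℝ F ∧ IsExtreme ℝ P F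

/-- A locally finite tiling of `ℝ^d` by `d`-dimensional convex polytopes. -/
structure IsPolytopeTiling {d : ℕ} (T : Set (Set (Sp d))) : Prop where
  polytope : ∀ A ∈ T, (∃ V : Finset (Sp d), A = convexHull ℝ (V : Set (Sp d))) ∧
    (interior A).Nonempty
  covers : ⋃₀ T = Set.univ
  disjoint : ∀ A ∈ T, ∀ B ∈ T, A ≠ B → Disjoint (interior A) (interior B)
  locallyFinite : ∀ B : Set (Sp d), Bornology.IsBounded B → {A | A ∈ T ∧ (A ∩ B).Nonempty}.Finite

/-- The set of pairs `(A, F)` with `A` a tile containing `x` and `F` the face of `A` whose relative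
interior contains `x`. -/
def sigma {d : ℕ} (T : Set (Set (Sp d))) (x : Sp d) : Set (Set (Sp d) × Set (Sp d)) :=
  {p | p.1 ∈ T ∧ x ∈ p.1 ∧ IsFace p.1 p.2 ∧ x ∈ intrinsicInterior ℝ p.2}

/-- The cells of a tiling: closures of the classes of points with the same `sigma`. -/
def cells {d : ℕ} (T : Set (Set (Sp d))) : Set (Set (Sp d)) :=
  {C | ∃ x, C = closure {y | sigma T y = sigma T x}}

/-- The elements of the face poset of a tiling: all cells, the empty set and the whole space. -/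
def facePoset {d : ℕ} (T : Set (Set (Sp d))) : Set (Set (Sp d)) :=
  cells T ∪ {∅, Set.univ}

/-- Two tilings are dual if there is an inclusion reversing bijection between their face
posets. -/
def AreDual {d : ℕ} (T T' : Set (Set (Sp d))) : Prop :=
  ∃ φ : facePoset T ≃ facePoset T', ∀ F₁ F₂ : facePoset T,
    (F₁ : Set (Sp d)) ⊆ F₂ ↔ (φ F₂ : Set (Sp d)) ⊆ φ F₁

/-! ### Relative interiors of convex sets -/

section convex

variable {E : Type*} [NormedAddCommGroup E] [NormedSpace ℝ E]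

lemma mem_ri {s : Set E} {x : E} : x ∈ intrinsicInterior ℝ s ↔
    x ∈ affineSpan ℝ s ∧ ∃ ε > 0, ∀ w ∈ affineSpan ℝ s, dist w x < ε → w ∈ s := by
  rw [mem_intrinsicInterior]
  constructor
  · rintro ⟨y, hy, rfl⟩
    refine ⟨y.2, ?_⟩
    rw [mem_interior_iff_mem_nhds, Metric.mem_nhds_iff] at hy
    obtain ⟨ε, hε, h⟩ := hy
    refine ⟨ε, hε, fun w hw hd => ?_⟩
    exact h (show (⟨w, hw⟩ : affineSpan ℝ s) ∈ Metric.ball y ε from hd)
  · rintro ⟨hx, ε, hε, h⟩
    refine ⟨⟨x, hx⟩, ?_, rfl⟩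
    rw [mem_interior_iff_mem_nhds, Metric.mem_nhds_iff]
    refine ⟨ε, hε, fun w hw => ?_⟩
    exact h w w.2 hw

lemma aff_comb {s : Set E} {x y : E} (hx : x ∈ affineSpan ℝ s) (hy : y ∈ affineSpan ℝ s)
    {z : E} (hz : z ∈ affineSpan ℝ s) (c : ℝ) : x + c • (y - z) ∈ affineSpan ℝ s := by
  have h1 : y -ᵥ z ∈ (affineSpan ℝ s).direction := AffineSubspace.vsub_mem_direction hy hz
  have h2 := (affineSpan ℝ s).direction.smul_mem c h1
  have h3 := AffineSubspace.vadd_mem_of_mem_direction h2 hx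
  simpa [vsub_eq_sub, vadd_eq_add, add_comm] using h3

/-- From a point of the relative interior one can extend segments a little. -/
lemma extend_ri {s : Set E} {x y : E} (hx : x ∈ intrinsicInterior ℝ s) (hy : y ∈ s) :
    ∃ z ∈ s, x ∈ openSegment ℝ y z := by
  obtain ⟨hxa, ε, hε, h⟩ := mem_ri.1 hx
  have hya : y ∈ affineSpan ℝ s := subset_affineSpan ℝ s hy
  set c : ℝ := ε / (2 * (‖x - y‖ + 1)) with hc
  have hn : 0 ≤ ‖x - y‖ := norm_nonneg _
  have hc0 : 0 < c := by positivity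
  refine ⟨x + c • (x - y), h _ (aff_comb hxa hxa hya c) ?_, ?_⟩
  · rw [dist_eq_norm, add_sub_cancel_left, norm_smul, Real.norm_of_nonneg hc0.le, hc]
    rw [div_mul_eq_mul_div, div_lt_iff₀ (by positivity)]
    nlinarith
  · refine ⟨c / (1 + c), 1 / (1 + c), by positivity, by positivity, by field_simp; ring, ?_⟩
    have : (1 + c) ≠ 0 := by positivity
    have e : (c / (1 + c)) • y + (1 / (1 + c)) • (x + c • (x - y)) =
        ((1 / (1 + c)) * (1 + c)) • x := by
      rw [smul_add, smul_smul, smul_sub]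
      module
    rw [e, one_div_mul_cancel this, one_smul]

/-- The open segment from a relative interior point to a point of the closure consists of points
of the set. -/
lemma segment_ri {s : Set E} [FiniteDimensional ℝ E] (hs : Convex ℝ s) {x y z : E}
    (hy : y ∈ intrinsicInterior ℝ s)
    (hz : z ∈ closure s) (hx : x ∈ openSegment ℝ y z) : x ∈ intrinsicInterior ℝ s := by
  obtain ⟨hya, ε, hε, h⟩ := mem_ri.1 hy
  obtain ⟨a, b, ha, hb, hab, rfl⟩ := hx
  have hza : z ∈ affineSpan ℝ s := by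
    have : closure s ⊆ (affineSpan ℝ s : Set E) := by
      apply closure_minimal (subset_affineSpan ℝ s)
      exact AffineSubspace.closed_of_finiteDimensional _
    exact this hz
  have hxa : a • y + b • z ∈ affineSpan ℝ s := by
    have := aff_comb hya hza hya b
    have e : y + b • (z - y) = a • y + b • z := by
      rw [show a = 1 - b by linarith]; module
    rwa [e] at this
  rw [mem_ri]
  refine ⟨hxa, a * ε / 2, by positivity, fun w hw hd => ?_⟩
  -- a point of `s` close to `z`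
  obtain ⟨z', hz's, hz'd⟩ := Metric.mem_closure_iff.1 hz (a * ε / (2 * b)) (by positivity)
  have hz'a := subset_affineSpan ℝ s hz's
  have hy'' : y + (1 / a) • ((w - (a • y + b • z)) + b • (z - z')) ∈ s := by
    apply h
    · have h1 := aff_comb hya hw hxa (1 / a)
      have h2 := aff_comb h1 hza hz'a ((1 / a) * b)
      convert h2 using 1
      module
    · rw [dist_eq_norm, add_sub_cancel_left, norm_smul, Real.norm_of_nonneg (by positivity)]
      have n1 : ‖w - (a • y + b • z)‖ < a * ε / 2 := by rwa [dist_eq_norm] at hd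
      have n2 : ‖b • (z - z')‖ < a * ε / 2 := by
        rw [norm_smul, Real.norm_of_nonneg hb.le, ← dist_eq_norm]
        calc b * dist z z' < b * (a * ε / (2 * b)) := by
              exact mul_lt_mul_of_pos_left hz'd hb
          _ = a * ε / 2 := by field_simp
      calc 1 / a * ‖w - (a • y + b • z) + b • (z - z')‖
          ≤ 1 / a * (‖w - (a • y + b • z)‖ + ‖b • (z - z')‖) :=
            mul_le_mul_of_nonneg_left (norm_add_le _ _) (by positivity)
        _ < 1 / a * (a * ε / 2 + a * ε / 2) := by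
            apply mul_lt_mul_of_pos_left (add_lt_add n1 n2) (by positivity)
        _ = ε := by field_simp; ring
  have := hs hy'' hz's ha.le hb.le hab
  convert this using 1
  rw [smul_add, smul_smul, mul_one_div_cancel ha.ne', one_smul]
  module

lemma convex_ri {s : Set E} [FiniteDimensional ℝ E] (hs : Convex ℝ s) {x y z : E}
    (hx : x ∈ intrinsicInterior ℝ s) (hy : y ∈ intrinsicInterior ℝ s)
    (hz : z ∈ openSegment ℝ x y) : z ∈ intrinsicInterior ℝ s :=
  segment_ri hs hx (subset_closure (intrinsicInterior_subset hy)) hz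

/-- A point from which every point of the convex set can be moved beyond is in the relative
interior. -/
lemma ri_of_extend {s : Set E} [FiniteDimensional ℝ E] (hs : Convex ℝ s) {x : E} (hx : x ∈ s)
    (h : ∀ y ∈ s, ∃ z ∈ s, x ∈ openSegment ℝ y z) : x ∈ intrinsicInterior ℝ s := by
  obtain ⟨y, hy⟩ := (intrinsicInterior_nonempty hs).2 ⟨x, hx⟩
  obtain ⟨z, hz, hxz⟩ := h y (intrinsicInterior_subset hy)
  exact segment_ri hs hy (subset_closure hz) hxz

lemma affineSpan_closure' {s : Set E} [FiniteDimensional ℝ E] :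
    affineSpan ℝ (closure s) = affineSpan ℝ s := by
  apply le_antisymm
  · apply affineSpan_le.2
    apply closure_minimal (subset_affineSpan ℝ s)
    exact AffineSubspace.closed_of_finiteDimensional _
  · exact affineSpan_mono ℝ subset_closure

/-- The relative interior of the closure of a convex set lies in the set. -/
lemma ri_closure {s : Set E} [FiniteDimensional ℝ E] (hs : Convex ℝ s) {x : E}
    (hx : x ∈ intrinsicInterior ℝ (closure s)) : x ∈ s := by
  have hne : s.Nonempty := by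
    rw [← closure_nonempty_iff]; exact ⟨x, intrinsicInterior_subset hx⟩
  obtain ⟨y, hy⟩ := (intrinsicInterior_nonempty hs).2 hne
  obtain ⟨z, hz, hxz⟩ := extend_ri hx (subset_closure (intrinsicInterior_subset hy))
  exact intrinsicInterior_subset (segment_ri hs hy hz hxz)

/-- If a set lies in another one and has the same dimension, then its relative interior lies in
the relative interior of the other one. -/
lemma ri_mono {s t : Set E} [FiniteDimensional ℝ E] (hst : s ⊆ t)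
    (hd : finrank ℝ (vectorSpan ℝ t) ≤ finrank ℝ (vectorSpan ℝ s)) {x : E}
    (hx : x ∈ intrinsicInterior ℝ s) : x ∈ intrinsicInterior ℝ t := by
  have hv : vectorSpan ℝ s = vectorSpan ℝ t :=
    Submodule.eq_of_le_of_finrank_le (vectorSpan_mono ℝ hst) hd
  have hxs := intrinsicInterior_subset hx
  have ha : affineSpan ℝ s = affineSpan ℝ t := by
    apply AffineSubspace.ext_of_direction_eq
    · rw [direction_affineSpan, direction_affineSpan, hv]
    · exact ⟨x, subset_affineSpan ℝ s hxs, subset_affineSpan ℝ t (hst hxs)⟩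
  obtain ⟨h1, ε, hε, h⟩ := mem_ri.1 hx
  rw [ha] at h1
  refine mem_ri.2 ⟨h1, ε, hε, fun w hw hd => hst (h w (by rw [ha]; exact hw) hd)⟩

end convex

/-! ### Faces -/

section faces

variable {d : ℕ}

/-- The smallest face containing `x`. -/
def minFace (P : Set (Sp d)) (x : Sp d) : Set (Sp d) := {y | y ∈ P ∧ ∃ z ∈ P, x ∈ openSegment ℝ y z}

lemma self_mem_minFace {P : Set (Sp d)} {x : Sp d} (hx : x ∈ P) : x ∈ minFace P x :=
  ⟨hx, x, hx, by rw [openSegment_same]; rfl⟩

lemma isFace_minFace {P : Set (Sp d)} (hP : Convex ℝ P) {x : Sp d} :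
    IsFace P (minFace P x) := by
  refine ⟨?_, fun y hy => hy.1, ?_⟩
  · rw [convex_iff_forall_pos]
    rintro y₁ ⟨hy₁, z₁, hz₁, a₁, b₁, ha₁, hb₁, hab₁, e₁⟩ y₂ ⟨hy₂, z₂, hz₂, a₂, b₂, ha₂, hb₂, hab₂, e₂⟩
      a b ha hb hab
    refine ⟨hP hy₁ hy₂ ha.le hb.le hab, ?_⟩
    -- weights
    set D := a * a₂ + b * a₁ with hD
    have hD0 : 0 < D := by positivity
    set l₁ := a * a₂ / D with hl₁
    set l₂ := b * a₁ / D with hl₂
    have hl : l₁ + l₂ = 1 := by rw [hl₁, hl₂, ← add_div, div_self hD0.ne']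
    have hl₁0 : 0 < l₁ := by positivity
    have hl₂0 : 0 < l₂ := by positivity
    set B := l₁ * b₁ + l₂ * b₂ with hB
    have hB0 : 0 < B := by positivity
    refine ⟨(l₁ * b₁ / B) • z₁ + (l₂ * b₂ / B) • z₂,
      hP hz₁ hz₂ (by positivity) (by positivity) (by rw [← add_div, div_self hB0.ne']), ?_⟩
    refine ⟨l₁ * a₁ + l₂ * a₂, B, by positivity, hB0, ?_, ?_⟩
    · rw [hB]
      calc l₁ * a₁ + l₂ * a₂ + (l₁ * b₁ + l₂ * b₂) = l₁ * (a₁ + b₁) + l₂ * (a₂ + b₂) := by ring
        _ = 1 := by rw [hab₁, hab₂]; linarith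
    · have hx1 : x = l₁ • (a₁ • y₁ + b₁ • z₁) + l₂ • (a₂ • y₂ + b₂ • z₂) := by
        rw [e₁, e₂, ← add_smul, hl, one_smul]
      rw [hx1]
      have c1 : (l₁ * a₁ + l₂ * a₂) * a = l₁ * a₁ := by
        rw [hl₁, hl₂]; field_simp
        exact hab
      have c2 : (l₁ * a₁ + l₂ * a₂) * b = l₂ * a₂ := by
        rw [hl₁, hl₂]; field_simp
        exact hab
      have c3 : B * (l₁ * b₁ / B) = l₁ * b₁ := mul_div_cancel₀ _ hB0.ne'
      have c4 : B * (l₂ * b₂ / B) = l₂ * b₂ := mul_div_cancel₀ _ hB0.ne'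
      rw [smul_add, smul_smul, smul_smul, c1, c2, smul_add, smul_smul, smul_smul, c3, c4]
      module
  · rintro u hu v hv y ⟨hy, z, hz, a, b, ha, hb, hab, e⟩ ⟨c, f, hc, hf, hcf, e'⟩
    refine ⟨hu, ?_⟩
    set B := a * f + b with hB
    have hB0 : 0 < B := by positivity
    refine ⟨(a * f / B) • v + (b / B) • z, hP hv hz (by positivity) (by positivity)
      (by rw [← add_div, div_self hB0.ne']), a * c, B, by positivity, hB0, ?_, ?_⟩
    · rw [hB]
      calc a * c + (a * f + b) = a * (c + f) + b := by ring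
        _ = 1 := by rw [hcf]; linarith
    · rw [← e, ← e', smul_add, smul_smul, smul_smul, mul_div_cancel₀ _ hB0.ne',
        mul_div_cancel₀ _ hB0.ne']
      module

lemma mem_ri_minFace {P : Set (Sp d)} (hP : Convex ℝ P) {x : Sp d} (hx : x ∈ P) :
    x ∈ intrinsicInterior ℝ (minFace P x) := by
  apply ri_of_extend (isFace_minFace hP).1 (self_mem_minFace hx)
  rintro y ⟨hy, z, hz, hxz⟩
  exact ⟨z, ⟨hz, y, hy, by rwa [openSegment_symm]⟩, hxz⟩

lemma face_subset {P F F' : Set (Sp d)} (hF : IsFace P F) (hF' : IsFace P F')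
    {x : Sp d} (hx : x ∈ intrinsicInterior ℝ F) (hx' : x ∈ F') : F ⊆ F' := by
  intro y hy
  obtain ⟨z, hz, hxz⟩ := extend_ri hx hy
  exact hF'.2.2 (hF.2.1 hy) (hF.2.1 hz) hx' hxz

lemma face_unique {P F F' : Set (Sp d)} (hF : IsFace P F) (hF' : IsFace P F')
    {x : Sp d} (hx : x ∈ intrinsicInterior ℝ F) (hx' : x ∈ intrinsicInterior ℝ F') : F = F' :=
  Set.Subset.antisymm (face_subset hF hF' hx (intrinsicInterior_subset hx'))
    (face_subset hF' hF hx' (intrinsicInterior_subset hx))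

end faces

/-! ### Tilings -/

section tilings

variable {d : ℕ} {T : Set (Set (Sp d))}

lemma IsPolytopeTiling.convex (hT : IsPolytopeTiling T) {A : Set (Sp d)} (hA : A ∈ T) :
    Convex ℝ A := by
  obtain ⟨V, rfl⟩ := (hT.polytope A hA).1
  exact convex_convexHull ℝ _

lemma IsPolytopeTiling.closed (hT : IsPolytopeTiling T) {A : Set (Sp d)} (hA : A ∈ T) :
    IsClosed A := by
  obtain ⟨V, rfl⟩ := (hT.polytope A hA).1
  exact (V.finite_toSet.isCompact_convexHull ℝ).isClosed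

lemma IsPolytopeTiling.mem_sigma (hT : IsPolytopeTiling T) {x : Sp d}
    {A F : Set (Sp d)} : (A, F) ∈ sigma T x ↔ A ∈ T ∧ x ∈ A ∧ F = minFace A x := by
  constructor
  · rintro ⟨h1, h2, h3, h4⟩
    refine ⟨h1, h2, ?_⟩
    exact face_unique h3 (isFace_minFace (hT.convex h1)) h4 (mem_ri_minFace (hT.convex h1) h2)
  · rintro ⟨h1, h2, rfl⟩
    exact ⟨h1, h2, isFace_minFace (hT.convex h1), mem_ri_minFace (hT.convex h1) h2⟩

lemma IsPolytopeTiling.sigma_eq_iff (hT : IsPolytopeTiling T) {x y : Sp d} :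
    sigma T y = sigma T x ↔ ∀ A ∈ T, (y ∈ A ↔ x ∈ A) ∧ (x ∈ A → minFace A y = minFace A x) := by
  constructor
  · intro h A hA
    refine ⟨⟨fun hy => ?_, fun hx => ?_⟩, fun hx => ?_⟩
    · have : (A, minFace A y) ∈ sigma T y := hT.mem_sigma.2 ⟨hA, hy, rfl⟩
      rw [h] at this
      exact (hT.mem_sigma.1 this).2.1
    · have : (A, minFace A x) ∈ sigma T x := hT.mem_sigma.2 ⟨hA, hx, rfl⟩
      rw [← h] at this
      exact (hT.mem_sigma.1 this).2.1
    · have : (A, minFace A x) ∈ sigma T x := hT.mem_sigma.2 ⟨hA, hx, rfl⟩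
      rw [← h] at this
      exact ((hT.mem_sigma.1 this).2.2).symm
  · intro h
    ext ⟨A, F⟩
    rw [hT.mem_sigma, hT.mem_sigma]
    constructor
    · rintro ⟨h1, h2, rfl⟩
      exact ⟨h1, (h A h1).1.1 h2, (h A h1).2 ((h A h1).1.1 h2)⟩
    · rintro ⟨h1, h2, rfl⟩
      exact ⟨h1, (h A h1).1.2 h2, ((h A h1).2 h2).symm⟩

/-- The tiles containing a point cover a neighbourhood of it. -/
lemma IsPolytopeTiling.nhd (hT : IsPolytopeTiling T) (x : Sp d) :
    ∃ ε > 0, ∀ w, dist w x < ε → ∃ A ∈ T, x ∈ A ∧ w ∈ A := by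
  have hfin := hT.locallyFinite (Metric.ball x 1) Metric.isBounded_ball
  set S := {A | A ∈ T ∧ (A ∩ Metric.ball x 1).Nonempty ∧ x ∉ A} with hS
  have hSfin : S.Finite := hfin.subset (fun A hA => ⟨hA.1, hA.2.1⟩)
  have hcl : IsClosed (⋃ A ∈ S, A) := hSfin.isClosed_biUnion (fun A hA => hT.closed hA.1)
  have hx : x ∉ ⋃ A ∈ S, A := by
    simp only [Set.mem_iUnion, not_exists]
    intro A hA hxA
    exact hA.2.2 hxA
  have hopen : (⋃ A ∈ S, A)ᶜ ∩ Metric.ball x 1 ∈ nhds x :=
    Filter.inter_mem (hcl.isOpen_compl.mem_nhds hx) (Metric.ball_mem_nhds x one_pos)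
  obtain ⟨ε, hε, h⟩ := Metric.mem_nhds_iff.1 hopen
  refine ⟨ε, hε, fun w hw => ?_⟩
  have hw' := h (Metric.mem_ball.2 hw)
  have : w ∈ ⋃₀ T := by rw [hT.covers]; trivial
  obtain ⟨A, hA, hwA⟩ := this
  refine ⟨A, hA, ?_, hwA⟩
  by_contra hxA
  apply hw'.1
  simp only [Set.mem_iUnion]
  exact ⟨A, ⟨hA, ⟨w, hwA, hw'.2⟩, hxA⟩, hwA⟩

/-- Disjointness of an open set from a closed convex set with interior. -/
lemma IsPolytopeTiling.disjoint_open (hT : IsPolytopeTiling T) {A : Set (Sp d)} (hA : A ∈ T)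
    {O : Set (Sp d)} (hO : IsOpen O) (h : Disjoint (interior A) O) : Disjoint A O := by
  have h1 : closure (interior A) = closure A :=
    (hT.convex hA).closure_interior_eq_closure_of_nonempty_interior (hT.polytope A hA).2
  have h2 := h.closure_left hO
  rw [h1, (hT.closed hA).closure_eq] at h2
  exact h2

/-- If the tiles containing `u` all contain `v`, then every tile containing a point of the open
segment between `u` and `v` contains `u`. -/
lemma IsPolytopeTiling.mem_of_segment (hT : IsPolytopeTiling T) {u v z : Sp d}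
    (huv : ∀ A ∈ T, u ∈ A → v ∈ A) (hz : z ∈ openSegment ℝ u v) {Q : Set (Sp d)} (hQ : Q ∈ T)
    (hzQ : z ∈ Q) : u ∈ Q := by
  obtain ⟨ε, hε, hcov⟩ := hT.nhd u
  obtain ⟨a, b, ha, hb, hab, rfl⟩ := hz
  by_contra huQ
  -- the ball around `z` is covered by tiles containing `u`
  have hball : ∀ w, dist w (a • u + b • v) < a * ε → ∃ A ∈ T, u ∈ A ∧ w ∈ A := by
    intro w hw
    obtain ⟨A, hA, huA, hwA⟩ := hcov (u + (1 / a) • (w - (a • u + b • v))) (by
      rw [dist_eq_norm, add_sub_cancel_left, norm_smul, Real.norm_of_nonneg (by positivity),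
        ← dist_eq_norm]
      rw [one_div_mul_eq_div, div_lt_iff₀ ha]
      linarith)
    refine ⟨A, hA, huA, ?_⟩
    have := hT.convex hA hwA (huv A hA huA) ha.le hb.le hab
    convert this using 1
    rw [smul_add, smul_smul, mul_one_div_cancel ha.ne', one_smul]
    module
  have hzcl : a • u + b • v ∈ closure (interior Q) := by
    rw [(hT.convex hQ).closure_interior_eq_closure_of_nonempty_interior (hT.polytope Q hQ).2]
    exact subset_closure hzQ
  obtain ⟨w, hwQ, hwd⟩ := Metric.mem_closure_iff.1 hzcl (a * ε) (by positivity)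
  obtain ⟨A, hA, huA, hwA⟩ := hball w (by rwa [dist_comm])
  have hne : A ≠ Q := fun h => huQ (h ▸ huA)
  have hdis := hT.disjoint_open hA isOpen_interior (hT.disjoint A hA Q hQ hne)
  exact Set.disjoint_left.1 hdis hwA hwQ

/-- Classes of points with the same `sigma` are convex. -/
lemma IsPolytopeTiling.class_convex (hT : IsPolytopeTiling T) (x : Sp d) :
    Convex ℝ {y | sigma T y = sigma T x} := by
  rw [convex_iff_openSegment_subset]
  intro u hu v hv z hz
  change sigma T u = sigma T x at hu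
  change sigma T v = sigma T x at hv
  change sigma T z = sigma T x
  have hsuv : sigma T u = sigma T v := hu.trans hv.symm
  rw [← hu, hT.sigma_eq_iff]
  rw [hT.sigma_eq_iff] at hsuv
  intro A hA
  have key : u ∈ A → z ∈ intrinsicInterior ℝ (minFace A u) := by
    intro huA
    have hvA : v ∈ A := (hsuv A hA).1.1 huA
    have h1 := mem_ri_minFace (hT.convex hA) huA
    have h2 := mem_ri_minFace (hT.convex hA) hvA
    rw [← (hsuv A hA).2 hvA] at h2
    exact convex_ri (isFace_minFace (hT.convex hA)).1 h1 h2 hz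
  have hzA : u ∈ A → z ∈ A := fun h => (intrinsicInterior_subset (key h)).1
  refine ⟨⟨fun h => hT.mem_of_segment (fun B hB h' => (hsuv B hB).1.1 h') hz hA h, hzA⟩, ?_⟩
  intro huA
  exact face_unique (isFace_minFace (hT.convex hA)) (isFace_minFace (hT.convex hA))
    (mem_ri_minFace (hT.convex hA) (hzA huA)) (key huA)

/-- The dimension of a set: the dimension of its affine span. -/
noncomputable def dimn (C : Set (Sp d)) : ℕ := finrank ℝ (vectorSpan ℝ C)

lemma vectorSpan_hull (S : Set (Sp d)) : vectorSpan ℝ (convexHull ℝ S) = vectorSpan ℝ S := by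
  rw [← direction_affineSpan, affineSpan_convexHull, direction_affineSpan]

lemma IsPolytopeTiling.cell_convex (hT : IsPolytopeTiling T) {C : Set (Sp d)} (hC : C ∈ cells T) :
    Convex ℝ C := by
  obtain ⟨x, rfl⟩ := hC
  exact (hT.class_convex x).closure

lemma cell_nonempty {C : Set (Sp d)} (hC : C ∈ cells T) : C.Nonempty := by
  obtain ⟨x, rfl⟩ := hC
  exact ⟨x, subset_closure rfl⟩

/-- Two cells which share a set of points of full dimension in both are equal. -/
lemma IsPolytopeTiling.cell_eq (hT : IsPolytopeTiling T) {C₁ C₂ : Set (Sp d)}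
    (h₁ : C₁ ∈ cells T) (h₂ : C₂ ∈ cells T) (S : Set (Sp d)) (hne : S.Nonempty)
    (hS₁ : S ⊆ C₁) (hS₂ : S ⊆ C₂) (hd₁ : dimn C₁ ≤ dimn S) (hd₂ : dimn C₂ ≤ dimn S) :
    C₁ = C₂ := by
  have c₁ := hT.cell_convex h₁
  have c₂ := hT.cell_convex h₂
  obtain ⟨x₁, e₁⟩ := h₁
  obtain ⟨x₂, e₂⟩ := h₂
  have hne' : (convexHull ℝ S).Nonempty := hne.convexHull
  obtain ⟨y, hy⟩ := (intrinsicInterior_nonempty (convex_convexHull ℝ S)).2 hne'
  have y₁ : y ∈ intrinsicInterior ℝ C₁ := by
    apply ri_mono (convexHull_min hS₁ c₁) _ hy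
    rw [vectorSpan_hull]; exact hd₁
  have y₂ : y ∈ intrinsicInterior ℝ C₂ := by
    apply ri_mono (convexHull_min hS₂ c₂) _ hy
    rw [vectorSpan_hull]; exact hd₂
  rw [e₁] at y₁
  rw [e₂] at y₂
  have s₁ : sigma T y = sigma T x₁ := ri_closure (hT.class_convex x₁) y₁
  have s₂ : sigma T y = sigma T x₂ := ri_closure (hT.class_convex x₂) y₂
  rw [e₁, e₂, ← s₁, ← s₂]

lemma IsPolytopeTiling.dimn_lt (hT : IsPolytopeTiling T) {C₁ C₂ : Set (Sp d)}
    (h₁ : C₁ ∈ cells T) (h₂ : C₂ ∈ cells T) (hs : C₁ ⊆ C₂) (hne : C₁ ≠ C₂) :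
    dimn C₁ < dimn C₂ := by
  by_contra hc
  push Not at hc
  exact hne (hT.cell_eq h₁ h₂ C₁ (cell_nonempty h₁) subset_rfl hs le_rfl hc)

lemma dimn_le (C : Set (Sp d)) : dimn C ≤ d := by
  have := Submodule.finrank_le (vectorSpan ℝ C)
  simpa [dimn] using this

lemma one_le_dimn_pair {p q : Sp d} (h : p ≠ q) : 1 ≤ dimn ({p, q} : Set (Sp d)) := by
  by_contra hc
  have h0 : dimn ({p, q} : Set (Sp d)) = 0 := by omega
  have h1 : vectorSpan ℝ ({p, q} : Set (Sp d)) = ⊥ := Submodule.finrank_eq_zero.1 h0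
  have h2 : p -ᵥ q ∈ vectorSpan ℝ ({p, q} : Set (Sp d)) :=
    vsub_mem_vectorSpan ℝ (by simp) (by simp)
  rw [h1, Submodule.mem_bot] at h2
  exact h (sub_eq_zero.1 h2)

/-- The configuration of cells that cannot exist in a tiling of three-space. -/
lemma IsPolytopeTiling.no_config {T : Set (Set (Sp d))} (hT : IsPolytopeTiling T)
    {cA cB cC cD cAD cBD cAC cBC cN cS cU : Set (Sp d)}
    (hA : cA ∈ cells T) (hB : cB ∈ cells T) (hC : cC ∈ cells T) (hD : cD ∈ cells T)
    (hAD : cAD ∈ cells T) (hBD : cBD ∈ cells T) (hAC : cAC ∈ cells T) (hBC : cBC ∈ cells T)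
    (hN : cN ∈ cells T) (hS : cS ∈ cells T) (hU : cU ∈ cells T)
    (A0 : dimn cA ≤ 0) (B0 : dimn cB ≤ 0) (C0 : dimn cC ≤ 0) (D0 : dimn cD ≤ 0)
    (AD1 : dimn cAD ≤ 1) (BD1 : dimn cBD ≤ 1) (AC1 : dimn cAC ≤ 1) (BC1 : dimn cBC ≤ 1)
    (N2 : dimn cN ≤ 2) (S2 : dimn cS ≤ 2) (U2 : dimn cU ≤ 2)
    (i1 : cA ⊆ cAD) (i2 : cD ⊆ cAD) (i3 : cB ⊆ cBD) (i4 : cD ⊆ cBD)
    (i5 : cA ⊆ cAC) (i6 : cC ⊆ cAC) (i7 : cB ⊆ cBC) (i8 : cC ⊆ cBC)
    (j1 : cAD ⊆ cN) (j2 : cAD ⊆ cS) (j3 : cBD ⊆ cN) (j4 : cBD ⊆ cS)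
    (j5 : cAC ⊆ cN) (j6 : cAC ⊆ cU) (j7 : cBC ⊆ cN) (j8 : cBC ⊆ cU)
    (nAB : cA ≠ cB) (nAC : cA ≠ cC) (nAD : cA ≠ cD) (nBC : cB ≠ cC) (nBD : cB ≠ cD)
    (m1 : cAD ≠ cBD) (m2 : cAC ≠ cBC) (m3 : cAD ≠ cAC) (m4 : cN ≠ cS) (m5 : cN ≠ cU) :
    False := by
  obtain ⟨a, ha⟩ := cell_nonempty hA
  obtain ⟨b, hb⟩ := cell_nonempty hB
  obtain ⟨c, hc⟩ := cell_nonempty hC
  obtain ⟨e, he⟩ := cell_nonempty hD
  have pt_ne : ∀ {X Y : Set (Sp d)}, X ∈ cells T → Y ∈ cells T → dimn X ≤ 0 → dimn Y ≤ 0 →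
      X ≠ Y → ∀ {x y : Sp d}, x ∈ X → y ∈ Y → x ≠ y := by
    rintro X Y hX hY hX0 hY0 hXY x y hx hy rfl
    exact hXY (hT.cell_eq hX hY {x} ⟨x, rfl⟩ (by simpa using hx) (by simpa using hy)
      (by omega) (by omega))
  have ab := pt_ne hA hB A0 B0 nAB ha hb
  have ac := pt_ne hA hC A0 C0 nAC ha hc
  have ae := pt_ne hA hD A0 D0 nAD ha he
  have bc := pt_ne hB hC B0 C0 nBC hb hc
  have be := pt_ne hB hD B0 D0 nBD hb he
  have two : ∀ {X Y : Set (Sp d)}, X ∈ cells T → Y ∈ cells T → dimn X ≤ 1 → dimn Y ≤ 1 →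
      X ≠ Y → ∀ {x y : Sp d}, x ∈ X → y ∈ X → x ∈ Y → y ∈ Y → x = y := by
    intro X Y hX hY hX1 hY1 hXY x y hx hy hx' hy'
    by_contra hne
    have h1 := one_le_dimn_pair hne
    apply hXY
    apply hT.cell_eq hX hY {x, y} ⟨x, by simp⟩ _ _ (by omega) (by omega)
    · intro z hz
      rcases hz with rfl | rfl
      exacts [hx, hy]
    · intro z hz
      rcases hz with rfl | rfl
      exacts [hx', hy']
  have three : ∀ {X Y : Set (Sp d)}, X ∈ cells T → Y ∈ cells T → dimn X ≤ 2 → dimn Y ≤ 2 →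
      X ≠ Y → ∀ {x y z : Sp d}, x ∈ X → y ∈ X → z ∈ X → x ∈ Y → y ∈ Y → z ∈ Y →
      Collinear ℝ {x, y, z} := by
    intro X Y hX hY hX1 hY1 hXY x y z hx hy hz hx' hy' hz'
    rw [collinear_iff_finrank_le_one]
    by_contra hne
    push Not at hne
    have h1 : 2 ≤ dimn ({x, y, z} : Set (Sp d)) := hne
    apply hXY
    apply hT.cell_eq hX hY {x, y, z} ⟨x, by simp⟩ _ _ (by omega) (by omega)
    · intro w hw
      rcases hw with rfl | rfl | rfl
      exacts [hx, hy, hz]
    · intro w hw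
      rcases hw with rfl | rfl | rfl
      exacts [hx', hy', hz']
  have param : ∀ {z : Sp d}, Collinear ℝ {a, b, z} → ∃ s : ℝ, z = a + s • (b - a) := by
    intro z hz
    obtain ⟨v, hv⟩ := (collinear_iff_of_mem (p₀ := a) (by simp)).1 hz
    obtain ⟨r1, hr1⟩ := hv b (by simp)
    obtain ⟨r2, hr2⟩ := hv z (by simp)
    have hr0 : r1 ≠ 0 := by
      rintro rfl
      apply ab
      rw [hr1]; simp
    refine ⟨r2 / r1, ?_⟩
    rw [hr2, hr1]
    simp only [vadd_eq_add, add_sub_cancel_right, smul_smul, div_mul_cancel₀ _ hr0]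
    abel
  obtain ⟨s, hs⟩ := param (three hN hS N2 S2 m4 (j1 (i1 ha)) (j3 (i3 hb)) (j1 (i2 he))
    (j2 (i1 ha)) (j4 (i3 hb)) (j2 (i2 he)))
  obtain ⟨t, ht⟩ := param (three hN hU N2 U2 m5 (j5 (i5 ha)) (j7 (i7 hb)) (j5 (i6 hc))
    (j6 (i5 ha)) (j8 (i7 hb)) (j6 (i6 hc)))
  have vAD := hT.cell_convex hAD
  have vBD := hT.cell_convex hBD
  have vAC := hT.cell_convex hAC
  have vBC := hT.cell_convex hBC
  -- positions of `e` and `c` on the line through `a` and `b`
  have pos : ∀ {X Y : Set (Sp d)}, X ∈ cells T → Y ∈ cells T → dimn X ≤ 1 → dimn Y ≤ 1 →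
      X ≠ Y → a ∈ X → b ∈ Y → ∀ {z : Sp d} {r : ℝ}, z = a + r • (b - a) → z ∈ X → z ∈ Y →
      a ≠ z → b ≠ z → 0 < r ∧ r < 1 := by
    intro X Y hX hY hX1 hY1 hXY haX hbY z r hr hzX hzY haz hbz
    constructor
    · by_contra hr0
      push Not at hr0
      -- `a` lies between `z` and `b`
      have haY : a ∈ Y := by
        have h1 : 0 ≤ 1 / (1 - r) := by
          apply div_nonneg zero_le_one; linarith
        have h2 : 0 ≤ -r / (1 - r) := by
          apply div_nonneg <;> linarith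
        have h3 : 1 / (1 - r) + -r / (1 - r) = 1 := by
          rw [← add_div]; apply div_eq_one_iff_eq (by linarith) |>.2; ring
        have := hT.cell_convex hY hzY hbY h1 h2 h3
        convert this using 1
        rw [hr]
        have h4 : (1 - r) ≠ 0 := by linarith
        have h5 : -r / (1 - r) = 1 - 1 / (1 - r) := by linarith
        have h6 : (1 / (1 - r)) * (1 - r) = 1 := one_div_mul_cancel h4
        have h7 : (1 / (1 - r)) • (a + r • (b - a)) + (-r / (1 - r)) • b =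
            ((1 / (1 - r)) * (1 - r)) • a + (1 - (1 / (1 - r)) * (1 - r)) • b := by
          rw [h5]; module
        rw [h7, h6]; simp
      exact haz (two hX hY hX1 hY1 hXY haX hzX haY hzY)
    · by_contra hr0
      push Not at hr0
      have hr0' : 0 < r := by linarith
      have hbX : b ∈ X := by
        have h1 : 0 ≤ 1 / r := by positivity
        have h2 : 0 ≤ 1 - 1 / r := by
          rw [sub_nonneg, div_le_one hr0']; exact hr0
        have := hT.cell_convex hX hzX haX h1 h2 (by ring)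
        convert this using 1
        rw [hr]
        have h7 : (1 / r) • (a + r • (b - a)) + (1 - 1 / r) • a =
            a + ((1 / r) * r) • (b - a) := by module
        rw [h7, one_div_mul_cancel hr0'.ne']; simp
      exact hbz (two hX hY hX1 hY1 hXY hbX hzX hbY hzY)
  obtain ⟨s0, s1⟩ := pos hAD hBD AD1 BD1 m1 (i1 ha) (i3 hb) hs (i2 he) (i4 he) ae be
  obtain ⟨t0, t1⟩ := pos hAC hBC AC1 BC1 m2 (i5 ha) (i7 hb) ht (i6 hc) (i8 hc) ac bc
  rcases le_total s t with hst | hst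
  · -- `e` lies between `a` and `c`
    have heAC : e ∈ cAC := by
      have h1 : 0 ≤ s / t := by positivity
      have h2 : 0 ≤ 1 - s / t := by
        rw [sub_nonneg, div_le_one t0]; exact hst
      have := vAC (i6 hc) (i5 ha) h1 h2 (by ring)
      convert this using 1
      rw [hs, ht]
      have h7 : (s / t) • (a + t • (b - a)) + (1 - s / t) • a =
          a + ((s / t) * t) • (b - a) := by module
      rw [h7, div_mul_cancel₀ _ t0.ne']
    exact ae (two hAD hAC AD1 AC1 m3 (i1 ha) (i2 he) (i5 ha) heAC)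
  · have hcAD : c ∈ cAD := by
      have h1 : 0 ≤ t / s := by positivity
      have h2 : 0 ≤ 1 - t / s := by
        rw [sub_nonneg, div_le_one s0]; exact hst
      have := vAD (i2 he) (i1 ha) h1 h2 (by ring)
      convert this using 1
      rw [hs, ht]
      have h7 : (t / s) • (a + s • (b - a)) + (1 - t / s) • a =
          a + ((t / s) * s) • (b - a) := by module
      rw [h7, div_mul_cancel₀ _ s0.ne']
    exact ac (two hAD hAC AD1 AC1 m3 (i1 ha) hcAD (i5 ha) (i6 hc))

end tilings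

/-! ### The tiling by bricks -/

section bricks

/-- The vertical shift of the column of bricks over the square `[i, i+1] × [j, j+1]`. -/
def shift (i j : ℤ) : ℤ := if Even (i + j) then 2 else if Even i then 0 else 1

/-- Lower corner of a brick. -/
def lo (t : ℤ × ℤ × ℤ) : Fin 3 → ℝ := ![(t.1 : ℝ), (t.2.1 : ℝ), 4 * (t.2.2 : ℝ) + shift t.1 t.2.1]

/-- Upper corner of a brick. -/
def hi (t : ℤ × ℤ × ℤ) : Fin 3 → ℝ :=
  ![(t.1 : ℝ) + 1, (t.2.1 : ℝ) + 1, 4 * (t.2.2 : ℝ) + shift t.1 t.2.1 + 4]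

/-- The brick with a given index. -/
def brick (t : ℤ × ℤ × ℤ) : Set (Sp 3) := Set.Icc (lo t) (hi t)

/-- The tiling: all bricks. -/
def bricks : Set (Set (Sp 3)) := Set.range brick

lemma lo_lt_hi (t : ℤ × ℤ × ℤ) (c : Fin 3) : lo t c < hi t c := by
  fin_cases c <;> simp [lo, hi]

lemma mem_brick {t : ℤ × ℤ × ℤ} {y : Sp 3} : y ∈ brick t ↔ ∀ c, lo t c ≤ y c ∧ y c ≤ hi t c := by
  simp only [brick, Set.mem_Icc, Pi.le_def]
  exact ⟨fun h c => ⟨h.1 c, h.2 c⟩, fun h => ⟨fun c => (h c).1, fun c => (h c).2⟩⟩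

lemma mem_brick' {i j k : ℤ} {y : Sp 3} : y ∈ brick (i, j, k) ↔
    ((i : ℝ) ≤ y 0 ∧ y 0 ≤ i + 1) ∧ ((j : ℝ) ≤ y 1 ∧ y 1 ≤ j + 1) ∧
      (4 * (k : ℝ) + shift i j ≤ y 2 ∧ y 2 ≤ 4 * (k : ℝ) + shift i j + 4) := by
  rw [mem_brick, Fin.forall_fin_succ, Fin.forall_fin_succ, Fin.forall_fin_succ]
  simp [lo, hi]

lemma mem_interior_brick {t : ℤ × ℤ × ℤ} {y : Sp 3} :
    y ∈ interior (brick t) ↔ ∀ c, lo t c < y c ∧ y c < hi t c := by
  rw [brick, ← Set.pi_univ_Icc, interior_pi_set Set.finite_univ]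
  simp [interior_Icc]

lemma brick_eq_hull (t : ℤ × ℤ × ℤ) :
    ∃ V : Finset (Sp 3), brick t = convexHull ℝ (V : Set (Sp 3)) := by
  have hfin : (Set.pi Set.univ (fun c => ({lo t c, hi t c} : Set ℝ))).Finite :=
    Set.Finite.pi' (fun c => (Set.finite_singleton _).insert _) |>.subset (by
      intro x hx c; exact hx c trivial)
  refine ⟨hfin.toFinset, ?_⟩
  rw [Set.Finite.coe_toFinset, convexHull_pi, brick, ← Set.pi_univ_Icc]
  congr 1
  funext c
  rw [convexHull_pair, segment_eq_Icc (lo_lt_hi t c).le]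

lemma bricks_tiling : IsPolytopeTiling bricks := by
  refine ⟨?_, ?_, ?_, ?_⟩
  · rintro A ⟨t, rfl⟩
    refine ⟨brick_eq_hull t, ⟨fun c => (lo t c + hi t c) / 2, ?_⟩⟩
    rw [mem_interior_brick]
    intro c
    have := lo_lt_hi t c
    constructor <;> linarith
  · rw [Set.eq_univ_iff_forall]
    intro x
    set i := ⌊x 0⌋ with hi
    set j := ⌊x 1⌋ with hj
    set k := ⌊(x 2 - shift i j) / 4⌋ with hk
    refine ⟨brick (i, j, k), ⟨_, rfl⟩, ?_⟩
    rw [mem_brick']
    have h1 := Int.floor_le (x 0)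
    have h2 := Int.lt_floor_add_one (x 0)
    have h3 := Int.floor_le (x 1)
    have h4 := Int.lt_floor_add_one (x 1)
    have h5 := Int.floor_le ((x 2 - shift i j) / 4)
    have h6 := Int.lt_floor_add_one ((x 2 - shift i j) / 4)
    rw [← hi] at h1 h2
    rw [← hj] at h3 h4
    rw [← hk] at h5 h6
    refine ⟨⟨h1, h2.le⟩, ⟨h3, h4.le⟩, ?_, ?_⟩ <;> linarith
  · rintro A ⟨⟨i, j, k⟩, rfl⟩ B ⟨⟨i', j', k'⟩, rfl⟩ hne
    rw [Set.disjoint_left]
    intro y hy hy'
    apply hne
    rw [mem_interior_brick, Fin.forall_fin_succ, Fin.forall_fin_succ, Fin.forall_fin_succ] at hy hy'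
    simp [lo, hi] at hy hy'
    obtain ⟨⟨a1, a2⟩, ⟨a3, a4⟩, a5, a6⟩ := hy
    obtain ⟨⟨b1, b2⟩, ⟨b3, b4⟩, b5, b6⟩ := hy'
    have e1 : i = i' := by
      have h1 : (i : ℝ) < i' + 1 := by linarith
      have h2 : (i' : ℝ) < i + 1 := by linarith
      have h1' : i < i' + 1 := by exact_mod_cast h1
      have h2' : i' < i + 1 := by exact_mod_cast h2
      omega
    have e2 : j = j' := by
      have h1 : (j : ℝ) < j' + 1 := by linarith
      have h2 : (j' : ℝ) < j + 1 := by linarith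
      have h1' : j < j' + 1 := by exact_mod_cast h1
      have h2' : j' < j + 1 := by exact_mod_cast h2
      omega
    subst e1 e2
    have e3 : k = k' := by
      have h1 : (k : ℝ) < k' + 1 := by linarith
      have h2 : (k' : ℝ) < k + 1 := by linarith
      have h1' : k < k' + 1 := by exact_mod_cast h1
      have h2' : k' < k + 1 := by exact_mod_cast h2
      omega
    rw [e3]
  · intro B hB
    obtain ⟨R, hR⟩ := hB.subset_closedBall 0
    obtain ⟨M, hM⟩ := exists_nat_gt R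
    apply Set.Finite.subset (((Set.finite_Icc (-(M : ℤ) - 1) (M + 1)).prod
      ((Set.finite_Icc (-(M : ℤ) - 1) (M + 1)).prod
        (Set.finite_Icc (-(M : ℤ) - 2) (M + 2)))).image brick)
    rintro A ⟨⟨⟨i, j, k⟩, rfl⟩, y, hy, hyB⟩
    have hn : ‖y‖ ≤ R := by simpa using hR hyB
    have hc : ∀ c, -(M : ℝ) < y c ∧ y c < M := by
      intro c
      have := (norm_le_pi_norm y c).trans hn
      rw [Real.norm_eq_abs, abs_le] at this
      constructor <;> linarith [this.1, this.2]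
    rw [mem_brick'] at hy
    obtain ⟨⟨a1, a2⟩, ⟨a3, a4⟩, a5, a6⟩ := hy
    have hs : (0 : ℝ) ≤ shift i j ∧ (shift i j : ℝ) ≤ 2 := by
      unfold shift
      split_ifs <;> norm_num
    refine ⟨(i, j, k), ⟨⟨?_, ?_⟩, ⟨?_, ?_⟩, ⟨?_, ?_⟩⟩, rfl⟩
    · have : -(M : ℝ) - 1 ≤ i := by linarith [(hc 0).1]
      exact_mod_cast this
    · have : (i : ℝ) ≤ M + 1 := by linarith [(hc 0).2]
      exact_mod_cast this
    · have : -(M : ℝ) - 1 ≤ j := by linarith [(hc 1).1]
      exact_mod_cast this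
    · have : (j : ℝ) ≤ M + 1 := by linarith [(hc 1).2]
      exact_mod_cast this
    · have hM0 : (0 : ℝ) ≤ M := Nat.cast_nonneg M
      have : -(M : ℝ) - 2 ≤ k := by linarith [(hc 2).1, hs.1, hs.2]
      exact_mod_cast this
    · have hM0 : (0 : ℝ) ≤ M := Nat.cast_nonneg M
      have : (k : ℝ) ≤ M + 2 := by linarith [(hc 2).2, hs.1, hs.2]
      exact_mod_cast this

/-- The smallest face of a brick containing a point of it. -/
lemma minFace_brick {t : ℤ × ℤ × ℤ} {x : Sp 3} (hx : x ∈ brick t) : minFace (brick t) x =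
    {y | y ∈ brick t ∧ ∀ c, (x c = lo t c → y c = lo t c) ∧ (x c = hi t c → y c = hi t c)} := by
  ext y
  constructor
  · rintro ⟨hy, z, hz, a, b, ha, hb, hab, e⟩
    refine ⟨hy, fun c => ?_⟩
    have hyc := mem_brick.1 hy c
    have hzc := mem_brick.1 hz c
    have ec : a * y c + b * z c = x c := by rw [← e]; simp
    constructor
    · intro h
      rw [h] at ec
      by_contra hne
      have : lo t c < y c := lt_of_le_of_ne hyc.1 (Ne.symm hne)
      have key : a * (y c - lo t c) + b * (z c - lo t c) = 0 := by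
        have : a * (y c - lo t c) + b * (z c - lo t c) =
          (a * y c + b * z c) - (a + b) * lo t c := by ring
        rw [this, ec, hab]; ring
      linarith [mul_pos ha (sub_pos.2 this), mul_nonneg hb.le (sub_nonneg.2 hzc.1)]
    · intro h
      rw [h] at ec
      by_contra hne
      have : y c < hi t c := lt_of_le_of_ne hyc.2 hne
      have key : a * (hi t c - y c) + b * (hi t c - z c) = 0 := by
        have : a * (hi t c - y c) + b * (hi t c - z c) =
          (a + b) * hi t c - (a * y c + b * z c) := by ring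
        rw [this, ec, hab]; ring
      linarith [mul_pos ha (sub_pos.2 this), mul_nonneg hb.le (sub_nonneg.2 hzc.2)]
  · rintro ⟨hy, hc⟩
    refine ⟨hy, ?_⟩
    have hev : ∀ c : Fin 3, ∀ᶠ ε in nhdsWithin (0 : ℝ) (Set.Ioi 0),
        lo t c ≤ x c + ε * (x c - y c) ∧ x c + ε * (x c - y c) ≤ hi t c := by
      intro c
      have hcont : Filter.Tendsto (fun ε : ℝ => x c + ε * (x c - y c))
          (nhdsWithin (0 : ℝ) (Set.Ioi 0)) (nhds (x c)) := by
        have : Filter.Tendsto (fun ε : ℝ => x c + ε * (x c - y c)) (nhds 0)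
            (nhds (x c + 0 * (x c - y c))) := by
          apply Continuous.tendsto
          fun_prop
        rw [zero_mul, add_zero] at this
        exact this.mono_left nhdsWithin_le_nhds
      have hxc := mem_brick.1 hx c
      apply Filter.Eventually.and
      · by_cases h : x c = lo t c
        · have := (hc c).1 h
          apply Filter.Eventually.of_forall
          intro ε
          rw [this, h]; simp
        · have h1 : lo t c < x c := lt_of_le_of_ne hxc.1 (Ne.symm h)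
          exact (hcont.eventually (lt_mem_nhds h1)).mono (fun ε h => h.le)
      · by_cases h : x c = hi t c
        · have := (hc c).2 h
          apply Filter.Eventually.of_forall
          intro ε
          rw [this, h]; simp
        · have h1 : x c < hi t c := lt_of_le_of_ne hxc.2 h
          exact (hcont.eventually (gt_mem_nhds h1)).mono (fun ε h => h.le)
    have hall := (Filter.eventually_all.2 hev).and (self_mem_nhdsWithin)
    obtain ⟨ε, h1, h2⟩ := hall.exists
    have hε : 0 < ε := h2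
    refine ⟨x + ε • (x - y), mem_brick.2 (fun c => by simpa using h1 c), ?_⟩
    refine ⟨ε / (1 + ε), 1 / (1 + ε), by positivity, by positivity, by field_simp; ring, ?_⟩
    have e1 : (ε / (1 + ε)) • y + (1 / (1 + ε)) • (x + ε • (x - y)) =
        ((1 / (1 + ε)) * (1 + ε)) • x := by
      rw [smul_add, smul_smul, smul_sub]
      module
    rw [e1, one_div_mul_cancel (by positivity), one_smul]

/-- A criterion for a set to be a cell of the tiling by bricks. -/
lemma cell_of_data (K : Set (Sp 3)) (L : List (ℤ × ℤ × ℤ)) (p : Sp 3) (hp : p ∈ K)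
    (h1 : ∀ y ∈ K, ∀ i j k : ℤ, y ∈ brick (i, j, k) → (i, j, k) ∈ L)
    (h2 : ∀ t ∈ L, ∀ x ∈ K, ∀ y ∈ K, y ∈ brick t ∧
      ∀ c, (x c = lo t c → y c = lo t c) ∧ (x c = hi t c → y c = hi t c))
    (h3 : ∀ x ∈ K, ∀ y, (∀ t ∈ L, y ∈ brick t ∧
      ∀ c, (x c = lo t c ↔ y c = lo t c) ∧ (x c = hi t c ↔ y c = hi t c)) → y ∈ K) :
    closure K ∈ cells bricks := by
  refine ⟨p, ?_⟩
  congr 1
  ext y
  change y ∈ K ↔ sigma bricks y = sigma bricks p
  rw [bricks_tiling.sigma_eq_iff]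
  constructor
  · rintro hy A ⟨⟨i, j, k⟩, rfl⟩
    refine ⟨⟨fun h => (h2 _ (h1 y hy i j k h) p hp p hp).1,
      fun h => (h2 _ (h1 p hp i j k h) y hy y hy).1⟩, fun h => ?_⟩
    have ht := h1 p hp i j k h
    rw [minFace_brick h, minFace_brick (h2 _ ht y hy y hy).1]
    ext z
    constructor
    · rintro ⟨hz, hc⟩
      refine ⟨hz, fun c => ⟨fun e => ?_, fun e => ?_⟩⟩
      · exact (hc c).1 (((h2 _ ht p hp y hy).2 c).1 e)
      · exact (hc c).2 (((h2 _ ht p hp y hy).2 c).2 e)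
    · rintro ⟨hz, hc⟩
      refine ⟨hz, fun c => ⟨fun e => ?_, fun e => ?_⟩⟩
      · exact (hc c).1 (((h2 _ ht y hy p hp).2 c).1 e)
      · exact (hc c).2 (((h2 _ ht y hy p hp).2 c).2 e)
  · intro h
    apply h3 p hp
    intro t ht
    have hpt : p ∈ brick t := (h2 t ht p hp p hp).1
    obtain ⟨ha, hb⟩ := h (brick t) ⟨t, rfl⟩
    have hyt : y ∈ brick t := ha.2 hpt
    refine ⟨hyt, fun c => ?_⟩
    have e := hb hpt
    have m1 : y ∈ minFace (brick t) p := by rw [← e]; exact self_mem_minFace hyt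
    have m2 : p ∈ minFace (brick t) y := by rw [e]; exact self_mem_minFace hpt
    rw [minFace_brick hpt] at m1
    rw [minFace_brick hyt] at m2
    exact ⟨⟨(m1.2 c).1, (m2.2 c).1⟩, ⟨(m1.2 c).2, (m2.2 c).2⟩⟩

lemma sh1 : shift (-1) (-1) = 2 := by decide
lemma sh2 : shift 0 0 = 2 := by decide
lemma sh3 : shift 0 (-1) = 0 := by decide
lemma sh4 : shift (-1) 0 = 1 := by decide

lemma forall3 {P : Fin 3 → Prop} : (∀ c, P c) ↔ P 0 ∧ P 1 ∧ P 2 := by
  constructor
  · intro h; exact ⟨h 0, h 1, h 2⟩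
  · rintro ⟨h0, h1, h2⟩ c
    fin_cases c
    exacts [h0, h1, h2]

lemma lo0 (t : ℤ × ℤ × ℤ) : lo t 0 = t.1 := rfl
lemma lo1 (t : ℤ × ℤ × ℤ) : lo t 1 = t.2.1 := rfl
lemma lo2 (t : ℤ × ℤ × ℤ) : lo t 2 = 4 * (t.2.2 : ℝ) + shift t.1 t.2.1 := rfl
lemma hi0 (t : ℤ × ℤ × ℤ) : hi t 0 = t.1 + 1 := rfl
lemma hi1 (t : ℤ × ℤ × ℤ) : hi t 1 = t.2.1 + 1 := rfl
lemma hi2 (t : ℤ × ℤ × ℤ) : hi t 2 = 4 * (t.2.2 : ℝ) + shift t.1 t.2.1 + 4 := rfl

lemma icast1 {i : ℤ} {a : ℝ} (h1 : (i : ℝ) ≤ a) (h2 : a ≤ i + 1) (h3 : a = 0) :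
    i = -1 ∨ i = 0 := by
  subst h3
  have h1' : i ≤ 0 := by exact_mod_cast h1
  have h2' : 0 ≤ i + 1 := by exact_mod_cast h2
  omega

lemma icast2 {i : ℤ} {a : ℝ} (h1 : (i : ℝ) ≤ a) (h2 : a ≤ i + 1) (h3 : -1 < a)
    (h4 : a < 0) : i = -1 := by
  have h1' : i < 0 := by
    have : (i : ℝ) < 0 := by linarith
    exact_mod_cast this
  have h2' : -2 < i := by
    have : (-2 : ℝ) < i := by linarith
    exact_mod_cast this
  omega

lemma icast3 {i : ℤ} {a : ℝ} (h1 : (i : ℝ) ≤ a) (h2 : a ≤ i + 1) (h3 : 0 < a)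
    (h4 : a < 1) : i = 0 := by
  have h1' : i < 1 := by
    have : (i : ℝ) < 1 := by linarith
    exact_mod_cast this
  have h2' : -1 < i := by
    have : (-1 : ℝ) < i := by linarith
    exact_mod_cast this
  omega

lemma kbound {k n : ℤ} {a : ℝ} (h1 : 4 * (k : ℝ) + n ≤ a) (h2 : a ≤ 4 * (k : ℝ) + n + 4) (l u : ℤ)
    (h3 : (l : ℝ) < a) (h4 : a < u) : 4 * k + n < u ∧ l < 4 * k + n + 4 := by
  constructor
  · have : 4 * (k : ℝ) + n < u := by linarith
    exact_mod_cast this
  · have : (l : ℝ) < 4 * (k : ℝ) + n + 4 := by linarith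
    exact_mod_cast this

/-- A product of integer points and open integer intervals. -/
def K (l u : Fin 3 → ℤ) : Set (Sp 3) :=
  Set.pi Set.univ (fun c => if l c = u c then {(l c : ℝ)} else Set.Ioo (l c : ℝ) (u c))

/-- A closed box with integer corners. -/
def cellBox (l u : Fin 3 → ℤ) : Set (Sp 3) :=
  Set.Icc (fun c => (l c : ℝ)) (fun c => (u c : ℝ))

lemma closure_K (l u : Fin 3 → ℤ) : closure (K l u) = cellBox l u := by
  rw [K, closure_pi_set, cellBox, ← Set.pi_univ_Icc]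
  congr 1
  funext c
  split_ifs with hc
  · rw [closure_singleton, hc, Set.Icc_self]
  · rw [closure_Ioo]
    exact_mod_cast hc

lemma cellBox_subset (l u l' u' : Fin 3 → ℤ) (h : ∀ c, l c ≤ u c) :
    cellBox l u ⊆ cellBox l' u' ↔ (∀ c, l' c ≤ l c) ∧ (∀ c, u c ≤ u' c) := by
  rw [cellBox, cellBox, Set.Icc_subset_Icc_iff (by intro c; exact Int.cast_le.2 (h c))]
  simp only [Pi.le_def, Int.cast_le]


lemma mem_KA (y : Sp 3) : y ∈ K ![-1, -1, -2] ![0, 0, 2] ↔ -1 < y 0 ∧ y 0 < 0 ∧ -1 < y 1 ∧ y 1 < 0 ∧ -2 < y 2 ∧ y 2 < 2 := by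
  simp only [K, Set.mem_pi, Set.mem_univ, forall_true_left, forall3]
  simp [and_assoc]

lemma cellA : cellBox ![-1, -1, -2] ![0, 0, 2] ∈ cells bricks := by
  rw [← closure_K]
  apply cell_of_data _ [(-1, -1, -1)] ![-1 / 2, -1 / 2, 0]
  · rw [mem_KA]; simp; try norm_num
  · intro y hy i j k h
    rw [mem_KA] at hy
    obtain ⟨h0, h1, h2, h3, h4, h5⟩ := hy
    rw [mem_brick'] at h
    obtain ⟨⟨a1, a2⟩, ⟨a3, a4⟩, a5, a6⟩ := h
    have hk := kbound a5 a6 (-2) 2 (by push_cast; linarith) (by push_cast; linarith)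
    obtain rfl := icast2 a1 a2 h0 h1 <;> obtain rfl := icast2 a3 a4 h2 h3 <;>
      simp only [sh1, sh2, sh3, sh4] at hk
    · have : k = -1 := by omega
      subst this; simp
  · intro t ht x hx y hy
    rw [mem_KA] at hx hy
    obtain ⟨h0, h1, h2, h3, h4, h5⟩ := hx
    obtain ⟨g0, g1, g2, g3, g4, g5⟩ := hy
    simp only [List.mem_cons, List.not_mem_nil, or_false] at ht
    subst ht
    · simp only [mem_brick', forall3, lo0, lo1, lo2, hi0, hi1, hi2, sh1, sh2, sh3, sh4]
      norm_num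
      grind
  · intro x hx y h
    rw [mem_KA] at hx ⊢
    obtain ⟨h0, h1, h2, h3, h4, h5⟩ := hx
    simp only [List.mem_cons, List.not_mem_nil, or_false, forall_eq_or_imp, forall_eq,
      mem_brick', forall3, lo0, lo1, lo2, hi0, hi1, hi2, sh1, sh2, sh3, sh4] at h
    norm_num at h
    grind

lemma mem_KB (y : Sp 3) : y ∈ K ![0, 0, -2] ![1, 1, 2] ↔ 0 < y 0 ∧ y 0 < 1 ∧ 0 < y 1 ∧ y 1 < 1 ∧ -2 < y 2 ∧ y 2 < 2 := by
  simp only [K, Set.mem_pi, Set.mem_univ, forall_true_left, forall3]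
  simp [and_assoc]

lemma cellB : cellBox ![0, 0, -2] ![1, 1, 2] ∈ cells bricks := by
  rw [← closure_K]
  apply cell_of_data _ [(0, 0, -1)] ![1 / 2, 1 / 2, 0]
  · rw [mem_KB]; simp; try norm_num
  · intro y hy i j k h
    rw [mem_KB] at hy
    obtain ⟨h0, h1, h2, h3, h4, h5⟩ := hy
    rw [mem_brick'] at h
    obtain ⟨⟨a1, a2⟩, ⟨a3, a4⟩, a5, a6⟩ := h
    have hk := kbound a5 a6 (-2) 2 (by push_cast; linarith) (by push_cast; linarith)
    obtain rfl := icast3 a1 a2 h0 h1 <;> obtain rfl := icast3 a3 a4 h2 h3 <;>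
      simp only [sh1, sh2, sh3, sh4] at hk
    · have : k = -1 := by omega
      subst this; simp
  · intro t ht x hx y hy
    rw [mem_KB] at hx hy
    obtain ⟨h0, h1, h2, h3, h4, h5⟩ := hx
    obtain ⟨g0, g1, g2, g3, g4, g5⟩ := hy
    simp only [List.mem_cons, List.not_mem_nil, or_false] at ht
    subst ht
    · simp only [mem_brick', forall3, lo0, lo1, lo2, hi0, hi1, hi2, sh1, sh2, sh3, sh4]
      norm_num
      grind
  · intro x hx y h
    rw [mem_KB] at hx ⊢
    obtain ⟨h0, h1, h2, h3, h4, h5⟩ := hx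
    simp only [List.mem_cons, List.not_mem_nil, or_false, forall_eq_or_imp, forall_eq,
      mem_brick', forall3, lo0, lo1, lo2, hi0, hi1, hi2, sh1, sh2, sh3, sh4] at h
    norm_num at h
    grind

lemma mem_KC (y : Sp 3) : y ∈ K ![0, -1, 0] ![1, 0, 4] ↔ 0 < y 0 ∧ y 0 < 1 ∧ -1 < y 1 ∧ y 1 < 0 ∧ 0 < y 2 ∧ y 2 < 4 := by
  simp only [K, Set.mem_pi, Set.mem_univ, forall_true_left, forall3]
  simp [and_assoc]

lemma cellC : cellBox ![0, -1, 0] ![1, 0, 4] ∈ cells bricks := by
  rw [← closure_K]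
  apply cell_of_data _ [(0, -1, 0)] ![1 / 2, -1 / 2, 2]
  · rw [mem_KC]; simp; try norm_num
  · intro y hy i j k h
    rw [mem_KC] at hy
    obtain ⟨h0, h1, h2, h3, h4, h5⟩ := hy
    rw [mem_brick'] at h
    obtain ⟨⟨a1, a2⟩, ⟨a3, a4⟩, a5, a6⟩ := h
    have hk := kbound a5 a6 (0) 4 (by push_cast; linarith) (by push_cast; linarith)
    obtain rfl := icast3 a1 a2 h0 h1 <;> obtain rfl := icast2 a3 a4 h2 h3 <;>
      simp only [sh1, sh2, sh3, sh4] at hk
    · have : k = 0 := by omega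
      subst this; simp
  · intro t ht x hx y hy
    rw [mem_KC] at hx hy
    obtain ⟨h0, h1, h2, h3, h4, h5⟩ := hx
    obtain ⟨g0, g1, g2, g3, g4, g5⟩ := hy
    simp only [List.mem_cons, List.not_mem_nil, or_false] at ht
    subst ht
    · simp only [mem_brick', forall3, lo0, lo1, lo2, hi0, hi1, hi2, sh1, sh2, sh3, sh4]
      norm_num
      grind
  · intro x hx y h
    rw [mem_KC] at hx ⊢
    obtain ⟨h0, h1, h2, h3, h4, h5⟩ := hx
    simp only [List.mem_cons, List.not_mem_nil, or_false, forall_eq_or_imp, forall_eq,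
      mem_brick', forall3, lo0, lo1, lo2, hi0, hi1, hi2, sh1, sh2, sh3, sh4] at h
    norm_num at h
    grind

lemma mem_KD (y : Sp 3) : y ∈ K ![-1, 0, -3] ![0, 1, 1] ↔ -1 < y 0 ∧ y 0 < 0 ∧ 0 < y 1 ∧ y 1 < 1 ∧ -3 < y 2 ∧ y 2 < 1 := by
  simp only [K, Set.mem_pi, Set.mem_univ, forall_true_left, forall3]
  simp [and_assoc]

lemma cellD : cellBox ![-1, 0, -3] ![0, 1, 1] ∈ cells bricks := by
  rw [← closure_K]
  apply cell_of_data _ [(-1, 0, -1)] ![-1 / 2, 1 / 2, -1]
  · rw [mem_KD]; simp; try norm_num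
  · intro y hy i j k h
    rw [mem_KD] at hy
    obtain ⟨h0, h1, h2, h3, h4, h5⟩ := hy
    rw [mem_brick'] at h
    obtain ⟨⟨a1, a2⟩, ⟨a3, a4⟩, a5, a6⟩ := h
    have hk := kbound a5 a6 (-3) 1 (by push_cast; linarith) (by push_cast; linarith)
    obtain rfl := icast2 a1 a2 h0 h1 <;> obtain rfl := icast3 a3 a4 h2 h3 <;>
      simp only [sh1, sh2, sh3, sh4] at hk
    · have : k = -1 := by omega
      subst this; simp
  · intro t ht x hx y hy
    rw [mem_KD] at hx hy
    obtain ⟨h0, h1, h2, h3, h4, h5⟩ := hx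
    obtain ⟨g0, g1, g2, g3, g4, g5⟩ := hy
    simp only [List.mem_cons, List.not_mem_nil, or_false] at ht
    subst ht
    · simp only [mem_brick', forall3, lo0, lo1, lo2, hi0, hi1, hi2, sh1, sh2, sh3, sh4]
      norm_num
      grind
  · intro x hx y h
    rw [mem_KD] at hx ⊢
    obtain ⟨h0, h1, h2, h3, h4, h5⟩ := hx
    simp only [List.mem_cons, List.not_mem_nil, or_false, forall_eq_or_imp, forall_eq,
      mem_brick', forall3, lo0, lo1, lo2, hi0, hi1, hi2, sh1, sh2, sh3, sh4] at h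
    norm_num at h
    grind

lemma mem_KAD (y : Sp 3) : y ∈ K ![-1, 0, -2] ![0, 0, 1] ↔ -1 < y 0 ∧ y 0 < 0 ∧ y 1 = 0 ∧ -2 < y 2 ∧ y 2 < 1 := by
  simp only [K, Set.mem_pi, Set.mem_univ, forall_true_left, forall3]
  simp [and_assoc]

lemma cellAD : cellBox ![-1, 0, -2] ![0, 0, 1] ∈ cells bricks := by
  rw [← closure_K]
  apply cell_of_data _ [(-1, -1, -1), (-1, 0, -1)] ![-1 / 2, 0, -1 / 2]
  · rw [mem_KAD]; simp; try norm_num
  · intro y hy i j k h
    rw [mem_KAD] at hy
    obtain ⟨h0, h1, h2, h3, h4⟩ := hy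
    rw [mem_brick'] at h
    obtain ⟨⟨a1, a2⟩, ⟨a3, a4⟩, a5, a6⟩ := h
    have hk := kbound a5 a6 (-2) 1 (by push_cast; linarith) (by push_cast; linarith)
    obtain rfl := icast2 a1 a2 h0 h1 <;> rcases icast1 a3 a4 h2 with rfl | rfl <;>
      simp only [sh1, sh2, sh3, sh4] at hk
    · have : k = -1 := by omega
      subst this; simp
    · have : k = -1 := by omega
      subst this; simp
  · intro t ht x hx y hy
    rw [mem_KAD] at hx hy
    obtain ⟨h0, h1, h2, h3, h4⟩ := hx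
    obtain ⟨g0, g1, g2, g3, g4⟩ := hy
    simp only [List.mem_cons, List.not_mem_nil, or_false] at ht
    rcases ht with rfl | rfl <;>
    · simp only [mem_brick', forall3, lo0, lo1, lo2, hi0, hi1, hi2, sh1, sh2, sh3, sh4]
      norm_num
      grind
  · intro x hx y h
    rw [mem_KAD] at hx ⊢
    obtain ⟨h0, h1, h2, h3, h4⟩ := hx
    simp only [List.mem_cons, List.not_mem_nil, or_false, forall_eq_or_imp, forall_eq,
      mem_brick', forall3, lo0, lo1, lo2, hi0, hi1, hi2, sh1, sh2, sh3, sh4] at h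
    norm_num at h
    grind

lemma mem_KBD (y : Sp 3) : y ∈ K ![0, 0, -2] ![0, 1, 1] ↔ y 0 = 0 ∧ 0 < y 1 ∧ y 1 < 1 ∧ -2 < y 2 ∧ y 2 < 1 := by
  simp only [K, Set.mem_pi, Set.mem_univ, forall_true_left, forall3]
  simp [and_assoc]

lemma cellBD : cellBox ![0, 0, -2] ![0, 1, 1] ∈ cells bricks := by
  rw [← closure_K]
  apply cell_of_data _ [(0, 0, -1), (-1, 0, -1)] ![0, 1 / 2, -1 / 2]
  · rw [mem_KBD]; simp; try norm_num
  · intro y hy i j k h
    rw [mem_KBD] at hy
    obtain ⟨h0, h1, h2, h3, h4⟩ := hy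
    rw [mem_brick'] at h
    obtain ⟨⟨a1, a2⟩, ⟨a3, a4⟩, a5, a6⟩ := h
    have hk := kbound a5 a6 (-2) 1 (by push_cast; linarith) (by push_cast; linarith)
    rcases icast1 a1 a2 h0 with rfl | rfl <;> obtain rfl := icast3 a3 a4 h1 h2 <;>
      simp only [sh1, sh2, sh3, sh4] at hk
    · have : k = -1 := by omega
      subst this; simp
    · have : k = -1 := by omega
      subst this; simp
  · intro t ht x hx y hy
    rw [mem_KBD] at hx hy
    obtain ⟨h0, h1, h2, h3, h4⟩ := hx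
    obtain ⟨g0, g1, g2, g3, g4⟩ := hy
    simp only [List.mem_cons, List.not_mem_nil, or_false] at ht
    rcases ht with rfl | rfl <;>
    · simp only [mem_brick', forall3, lo0, lo1, lo2, hi0, hi1, hi2, sh1, sh2, sh3, sh4]
      norm_num
      grind
  · intro x hx y h
    rw [mem_KBD] at hx ⊢
    obtain ⟨h0, h1, h2, h3, h4⟩ := hx
    simp only [List.mem_cons, List.not_mem_nil, or_false, forall_eq_or_imp, forall_eq,
      mem_brick', forall3, lo0, lo1, lo2, hi0, hi1, hi2, sh1, sh2, sh3, sh4] at h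
    norm_num at h
    grind

lemma mem_KAC (y : Sp 3) : y ∈ K ![0, -1, 0] ![0, 0, 2] ↔ y 0 = 0 ∧ -1 < y 1 ∧ y 1 < 0 ∧ 0 < y 2 ∧ y 2 < 2 := by
  simp only [K, Set.mem_pi, Set.mem_univ, forall_true_left, forall3]
  simp [and_assoc]

lemma cellAC : cellBox ![0, -1, 0] ![0, 0, 2] ∈ cells bricks := by
  rw [← closure_K]
  apply cell_of_data _ [(-1, -1, -1), (0, -1, 0)] ![0, -1 / 2, 1]
  · rw [mem_KAC]; simp; try norm_num
  · intro y hy i j k h
    rw [mem_KAC] at hy
    obtain ⟨h0, h1, h2, h3, h4⟩ := hy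
    rw [mem_brick'] at h
    obtain ⟨⟨a1, a2⟩, ⟨a3, a4⟩, a5, a6⟩ := h
    have hk := kbound a5 a6 (0) 2 (by push_cast; linarith) (by push_cast; linarith)
    rcases icast1 a1 a2 h0 with rfl | rfl <;> obtain rfl := icast2 a3 a4 h1 h2 <;>
      simp only [sh1, sh2, sh3, sh4] at hk
    · have : k = -1 := by omega
      subst this; simp
    · have : k = 0 := by omega
      subst this; simp
  · intro t ht x hx y hy
    rw [mem_KAC] at hx hy
    obtain ⟨h0, h1, h2, h3, h4⟩ := hx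
    obtain ⟨g0, g1, g2, g3, g4⟩ := hy
    simp only [List.mem_cons, List.not_mem_nil, or_false] at ht
    rcases ht with rfl | rfl <;>
    · simp only [mem_brick', forall3, lo0, lo1, lo2, hi0, hi1, hi2, sh1, sh2, sh3, sh4]
      norm_num
      grind
  · intro x hx y h
    rw [mem_KAC] at hx ⊢
    obtain ⟨h0, h1, h2, h3, h4⟩ := hx
    simp only [List.mem_cons, List.not_mem_nil, or_false, forall_eq_or_imp, forall_eq,
      mem_brick', forall3, lo0, lo1, lo2, hi0, hi1, hi2, sh1, sh2, sh3, sh4] at h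
    norm_num at h
    grind

lemma mem_KBC (y : Sp 3) : y ∈ K ![0, 0, 0] ![1, 0, 2] ↔ 0 < y 0 ∧ y 0 < 1 ∧ y 1 = 0 ∧ 0 < y 2 ∧ y 2 < 2 := by
  simp only [K, Set.mem_pi, Set.mem_univ, forall_true_left, forall3]
  simp [and_assoc]

lemma cellBC : cellBox ![0, 0, 0] ![1, 0, 2] ∈ cells bricks := by
  rw [← closure_K]
  apply cell_of_data _ [(0, 0, -1), (0, -1, 0)] ![1 / 2, 0, 1]
  · rw [mem_KBC]; simp; try norm_num
  · intro y hy i j k h
    rw [mem_KBC] at hy
    obtain ⟨h0, h1, h2, h3, h4⟩ := hy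
    rw [mem_brick'] at h
    obtain ⟨⟨a1, a2⟩, ⟨a3, a4⟩, a5, a6⟩ := h
    have hk := kbound a5 a6 (0) 2 (by push_cast; linarith) (by push_cast; linarith)
    obtain rfl := icast3 a1 a2 h0 h1 <;> rcases icast1 a3 a4 h2 with rfl | rfl <;>
      simp only [sh1, sh2, sh3, sh4] at hk
    · have : k = 0 := by omega
      subst this; simp
    · have : k = -1 := by omega
      subst this; simp
  · intro t ht x hx y hy
    rw [mem_KBC] at hx hy
    obtain ⟨h0, h1, h2, h3, h4⟩ := hx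
    obtain ⟨g0, g1, g2, g3, g4⟩ := hy
    simp only [List.mem_cons, List.not_mem_nil, or_false] at ht
    rcases ht with rfl | rfl <;>
    · simp only [mem_brick', forall3, lo0, lo1, lo2, hi0, hi1, hi2, sh1, sh2, sh3, sh4]
      norm_num
      grind
  · intro x hx y h
    rw [mem_KBC] at hx ⊢
    obtain ⟨h0, h1, h2, h3, h4⟩ := hx
    simp only [List.mem_cons, List.not_mem_nil, or_false, forall_eq_or_imp, forall_eq,
      mem_brick', forall3, lo0, lo1, lo2, hi0, hi1, hi2, sh1, sh2, sh3, sh4] at h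
    norm_num at h
    grind

lemma mem_KN (y : Sp 3) : y ∈ K ![0, 0, 0] ![0, 0, 1] ↔ y 0 = 0 ∧ y 1 = 0 ∧ 0 < y 2 ∧ y 2 < 1 := by
  simp only [K, Set.mem_pi, Set.mem_univ, forall_true_left, forall3]
  simp [and_assoc]

lemma cellN : cellBox ![0, 0, 0] ![0, 0, 1] ∈ cells bricks := by
  rw [← closure_K]
  apply cell_of_data _ [(-1, -1, -1), (0, 0, -1), (0, -1, 0), (-1, 0, -1)] ![0, 0, 1 / 2]
  · rw [mem_KN]; simp; try norm_num
  · intro y hy i j k h
    rw [mem_KN] at hy
    obtain ⟨h0, h1, h2, h3⟩ := hy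
    rw [mem_brick'] at h
    obtain ⟨⟨a1, a2⟩, ⟨a3, a4⟩, a5, a6⟩ := h
    have hk := kbound a5 a6 (0) 1 (by push_cast; linarith) (by push_cast; linarith)
    rcases icast1 a1 a2 h0 with rfl | rfl <;> rcases icast1 a3 a4 h1 with rfl | rfl <;>
      simp only [sh1, sh2, sh3, sh4] at hk
    · have : k = -1 := by omega
      subst this; simp
    · have : k = -1 := by omega
      subst this; simp
    · have : k = 0 := by omega
      subst this; simp
    · have : k = -1 := by omega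
      subst this; simp
  · intro t ht x hx y hy
    rw [mem_KN] at hx hy
    obtain ⟨h0, h1, h2, h3⟩ := hx
    obtain ⟨g0, g1, g2, g3⟩ := hy
    simp only [List.mem_cons, List.not_mem_nil, or_false] at ht
    rcases ht with rfl | rfl | rfl | rfl <;>
    · simp only [mem_brick', forall3, lo0, lo1, lo2, hi0, hi1, hi2, sh1, sh2, sh3, sh4]
      norm_num
      grind
  · intro x hx y h
    rw [mem_KN] at hx ⊢
    obtain ⟨h0, h1, h2, h3⟩ := hx
    simp only [List.mem_cons, List.not_mem_nil, or_false, forall_eq_or_imp, forall_eq,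
      mem_brick', forall3, lo0, lo1, lo2, hi0, hi1, hi2, sh1, sh2, sh3, sh4] at h
    norm_num at h
    grind

lemma mem_KS (y : Sp 3) : y ∈ K ![0, 0, -2] ![0, 0, 0] ↔ y 0 = 0 ∧ y 1 = 0 ∧ -2 < y 2 ∧ y 2 < 0 := by
  simp only [K, Set.mem_pi, Set.mem_univ, forall_true_left, forall3]
  simp [and_assoc]

lemma cellS : cellBox ![0, 0, -2] ![0, 0, 0] ∈ cells bricks := by
  rw [← closure_K]
  apply cell_of_data _ [(-1, -1, -1), (0, 0, -1), (0, -1, -1), (-1, 0, -1)] ![0, 0, -1]
  · rw [mem_KS]; simp; try norm_num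
  · intro y hy i j k h
    rw [mem_KS] at hy
    obtain ⟨h0, h1, h2, h3⟩ := hy
    rw [mem_brick'] at h
    obtain ⟨⟨a1, a2⟩, ⟨a3, a4⟩, a5, a6⟩ := h
    have hk := kbound a5 a6 (-2) 0 (by push_cast; linarith) (by push_cast; linarith)
    rcases icast1 a1 a2 h0 with rfl | rfl <;> rcases icast1 a3 a4 h1 with rfl | rfl <;>
      simp only [sh1, sh2, sh3, sh4] at hk
    · have : k = -1 := by omega
      subst this; simp
    · have : k = -1 := by omega
      subst this; simp
    · have : k = -1 := by omega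
      subst this; simp
    · have : k = -1 := by omega
      subst this; simp
  · intro t ht x hx y hy
    rw [mem_KS] at hx hy
    obtain ⟨h0, h1, h2, h3⟩ := hx
    obtain ⟨g0, g1, g2, g3⟩ := hy
    simp only [List.mem_cons, List.not_mem_nil, or_false] at ht
    rcases ht with rfl | rfl | rfl | rfl <;>
    · simp only [mem_brick', forall3, lo0, lo1, lo2, hi0, hi1, hi2, sh1, sh2, sh3, sh4]
      norm_num
      grind
  · intro x hx y h
    rw [mem_KS] at hx ⊢
    obtain ⟨h0, h1, h2, h3⟩ := hx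
    simp only [List.mem_cons, List.not_mem_nil, or_false, forall_eq_or_imp, forall_eq,
      mem_brick', forall3, lo0, lo1, lo2, hi0, hi1, hi2, sh1, sh2, sh3, sh4] at h
    norm_num at h
    grind

lemma mem_KU (y : Sp 3) : y ∈ K ![0, 0, 1] ![0, 0, 2] ↔ y 0 = 0 ∧ y 1 = 0 ∧ 1 < y 2 ∧ y 2 < 2 := by
  simp only [K, Set.mem_pi, Set.mem_univ, forall_true_left, forall3]
  simp [and_assoc]

lemma cellU : cellBox ![0, 0, 1] ![0, 0, 2] ∈ cells bricks := by
  rw [← closure_K]
  apply cell_of_data _ [(-1, -1, -1), (0, 0, -1), (0, -1, 0), (-1, 0, 0)] ![0, 0, 3 / 2]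
  · rw [mem_KU]; simp; try norm_num
  · intro y hy i j k h
    rw [mem_KU] at hy
    obtain ⟨h0, h1, h2, h3⟩ := hy
    rw [mem_brick'] at h
    obtain ⟨⟨a1, a2⟩, ⟨a3, a4⟩, a5, a6⟩ := h
    have hk := kbound a5 a6 (1) 2 (by push_cast; linarith) (by push_cast; linarith)
    rcases icast1 a1 a2 h0 with rfl | rfl <;> rcases icast1 a3 a4 h1 with rfl | rfl <;>
      simp only [sh1, sh2, sh3, sh4] at hk
    · have : k = -1 := by omega
      subst this; simp
    · have : k = 0 := by omega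
      subst this; simp
    · have : k = 0 := by omega
      subst this; simp
    · have : k = -1 := by omega
      subst this; simp
  · intro t ht x hx y hy
    rw [mem_KU] at hx hy
    obtain ⟨h0, h1, h2, h3⟩ := hx
    obtain ⟨g0, g1, g2, g3⟩ := hy
    simp only [List.mem_cons, List.not_mem_nil, or_false] at ht
    rcases ht with rfl | rfl | rfl | rfl <;>
    · simp only [mem_brick', forall3, lo0, lo1, lo2, hi0, hi1, hi2, sh1, sh2, sh3, sh4]
      norm_num
      grind
  · intro x hx y h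
    rw [mem_KU] at hx ⊢
    obtain ⟨h0, h1, h2, h3⟩ := hx
    simp only [List.mem_cons, List.not_mem_nil, or_false, forall_eq_or_imp, forall_eq,
      mem_brick', forall3, lo0, lo1, lo2, hi0, hi1, hi2, sh1, sh2, sh3, sh4] at h
    norm_num at h
    grind

lemma mem_KX (y : Sp 3) : y ∈ K ![0, 0, 0] ![0, 0, 0] ↔ y 0 = 0 ∧ y 1 = 0 ∧ y 2 = 0 := by
  simp only [K, Set.mem_pi, Set.mem_univ, forall_true_left, forall3]
  simp [and_assoc]

lemma cellX : cellBox ![0, 0, 0] ![0, 0, 0] ∈ cells bricks := by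
  rw [← closure_K]
  apply cell_of_data _ [(-1, -1, -1), (0, 0, -1), (0, -1, 0), (0, -1, -1), (-1, 0, -1)] ![0, 0, 0]
  · rw [mem_KX]; simp; try norm_num
  · intro y hy i j k h
    rw [mem_KX] at hy
    obtain ⟨h0, h1, h2⟩ := hy
    rw [mem_brick'] at h
    obtain ⟨⟨a1, a2⟩, ⟨a3, a4⟩, a5, a6⟩ := h
    have hk := kbound a5 a6 (-1) 1 (by rw [h2]; norm_num) (by rw [h2]; norm_num)
    rcases icast1 a1 a2 h0 with rfl | rfl <;> rcases icast1 a3 a4 h1 with rfl | rfl <;>
      simp only [sh1, sh2, sh3, sh4] at hk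
    · have : k = -1 := by omega
      subst this; simp
    · have : k = -1 := by omega
      subst this; simp
    · have : k = 0 ∨ k = -1 := by omega
      rcases this with rfl | rfl <;> simp
    · have : k = -1 := by omega
      subst this; simp
  · intro t ht x hx y hy
    rw [mem_KX] at hx hy
    obtain ⟨h0, h1, h2⟩ := hx
    obtain ⟨g0, g1, g2⟩ := hy
    simp only [List.mem_cons, List.not_mem_nil, or_false] at ht
    rcases ht with rfl | rfl | rfl | rfl | rfl <;>
    · simp only [mem_brick', forall3, lo0, lo1, lo2, hi0, hi1, hi2, sh1, sh2, sh3, sh4]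
      norm_num
      grind
  · intro x hx y h
    rw [mem_KX] at hx ⊢
    obtain ⟨h0, h1, h2⟩ := hx
    simp only [List.mem_cons, List.not_mem_nil, or_false, forall_eq_or_imp, forall_eq,
      mem_brick', forall3, lo0, lo1, lo2, hi0, hi1, hi2, sh1, sh2, sh3, sh4] at h
    norm_num at h
    grind

lemma mem_KY (y : Sp 3) : y ∈ K ![0, 0, 1] ![0, 0, 1] ↔ y 0 = 0 ∧ y 1 = 0 ∧ y 2 = 1 := by
  simp only [K, Set.mem_pi, Set.mem_univ, forall_true_left, forall3]
  simp [and_assoc]

lemma cellY : cellBox ![0, 0, 1] ![0, 0, 1] ∈ cells bricks := by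
  rw [← closure_K]
  apply cell_of_data _ [(-1, -1, -1), (0, 0, -1), (0, -1, 0), (-1, 0, -1), (-1, 0, 0)] ![0, 0, 1]
  · rw [mem_KY]; simp; try norm_num
  · intro y hy i j k h
    rw [mem_KY] at hy
    obtain ⟨h0, h1, h2⟩ := hy
    rw [mem_brick'] at h
    obtain ⟨⟨a1, a2⟩, ⟨a3, a4⟩, a5, a6⟩ := h
    have hk := kbound a5 a6 (0) 2 (by rw [h2]; norm_num) (by rw [h2]; norm_num)
    rcases icast1 a1 a2 h0 with rfl | rfl <;> rcases icast1 a3 a4 h1 with rfl | rfl <;>
      simp only [sh1, sh2, sh3, sh4] at hk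
    · have : k = -1 := by omega
      subst this; simp
    · have : k = -1 ∨ k = 0 := by omega
      rcases this with rfl | rfl <;> simp
    · have : k = 0 := by omega
      subst this; simp
    · have : k = -1 := by omega
      subst this; simp
  · intro t ht x hx y hy
    rw [mem_KY] at hx hy
    obtain ⟨h0, h1, h2⟩ := hx
    obtain ⟨g0, g1, g2⟩ := hy
    simp only [List.mem_cons, List.not_mem_nil, or_false] at ht
    rcases ht with rfl | rfl | rfl | rfl | rfl <;>
    · simp only [mem_brick', forall3, lo0, lo1, lo2, hi0, hi1, hi2, sh1, sh2, sh3, sh4]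
      norm_num
      grind
  · intro x hx y h
    rw [mem_KY] at hx ⊢
    obtain ⟨h0, h1, h2⟩ := hx
    simp only [List.mem_cons, List.not_mem_nil, or_false, forall_eq_or_imp, forall_eq,
      mem_brick', forall3, lo0, lo1, lo2, hi0, hi1, hi2, sh1, sh2, sh3, sh4] at h
    norm_num at h
    grind

lemma cellBox_nonempty (l u : Fin 3 → ℤ) (h : ∀ c, l c ≤ u c) : cellBox l u ≠ ∅ := by
  rw [← Set.nonempty_iff_ne_empty, cellBox, Set.nonempty_Icc]
  intro c; exact Int.cast_le.2 (h c)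

lemma cellBox_ne_univ (l u : Fin 3 → ℤ) : cellBox l u ≠ Set.univ := by
  intro h
  have : (fun c => (u c : ℝ) + 1) ∈ cellBox l u := by rw [h]; trivial
  have h1 := this.2 0
  simp only at h1
  linarith

lemma cellBox_ne (l u l' u' : Fin 3 → ℤ) (h : ∀ c, l c ≤ u c)
    (hn : ¬ ((∀ c, l' c ≤ l c) ∧ (∀ c, u c ≤ u' c))) : cellBox l u ≠ cellBox l' u' := by
  intro he
  exact hn ((cellBox_subset l u l' u' h).1 he.subset)

lemma cellBox_sub (l u l' u' : Fin 3 → ℤ)
    (h1 : ∀ c, l' c ≤ l c) (h2 : ∀ c, u c ≤ u' c) : cellBox l u ⊆ cellBox l' u' :=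
  Set.Icc_subset_Icc (fun c => Int.cast_le.2 (h1 c)) (fun c => Int.cast_le.2 (h2 c))

end bricks

end Pool.Agent.KS6_1.Dual
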