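import Mathlib
import Pool.Agent.KS6_1.Dual.Base

set_option autoImplicit false

namespace Pool.Agent.KS6_1.Dual

open Module Set

variable {d : ℕ}

/-- the prism over `A` with heights in `I` -/
def prism (I : Set ℝ) (A : Set (Sp d)) : Set (Sp (d + 1)) := {x | x 0 ∈ I ∧ Fin.tail x ∈ A}

/-- coordinates: first coordinate and the others -/
noncomputable def spl (d : ℕ) : Sp (d + 1) ≃L[ℝ] ℝ × Sp d :=
  (Fin.consLinearEquiv ℝ (fun _ : Fin (d + 1) => ℝ)).symm.toContinuousLinearEquiv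

lemma spl_apply (x : Sp (d + 1)) : spl d x = (x 0, Fin.tail x) := rfl

lemma spl_symm_apply (p : ℝ × Sp d) : (spl d).symm p = Fin.cons p.1 p.2 := rfl

lemma prism_eq (I : Set ℝ) (A : Set (Sp d)) : prism I A = spl d ⁻¹' (I ×ˢ A) := rfl

lemma interior_prism (I : Set ℝ) (A : Set (Sp d)) :
    interior (prism I A) = prism (interior I) (interior A) := by
  rw [prism_eq, prism_eq, ← interior_prod_eq]
  exact ((spl d).toHomeomorph.preimage_interior _).symm

lemma closure_prism (I : Set ℝ) (A : Set (Sp d)) :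
    closure (prism I A) = prism (closure I) (closure A) := by
  rw [prism_eq, prism_eq, ← closure_prod_eq]
  exact ((spl d).toHomeomorph.preimage_closure _).symm

lemma convex_prism {I : Set ℝ} {A : Set (Sp d)} (hI : Convex ℝ I) (hA : Convex ℝ A) :
    Convex ℝ (prism I A) :=
  (hI.prod hA).linear_preimage (spl d).toLinearEquiv.toLinearMap

lemma prism_hull (a b : ℝ) (hab : a ≤ b) (V : Finset (Sp d)) : ∃ W : Finset (Sp (d + 1)),
    prism (Icc a b) (convexHull ℝ (V : Set (Sp d))) = convexHull ℝ (W : Set (Sp (d + 1))) := by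
  classical
  refine ⟨(({a, b} : Finset ℝ) ×ˢ V).image (fun p => (Fin.cons p.1 p.2 : Sp (d + 1))), ?_⟩
  have h1 : prism (Icc a b) (convexHull ℝ (V : Set (Sp d))) =
      (spl d).symm '' (Icc a b ×ˢ convexHull ℝ (V : Set (Sp d))) := by
    rw [prism_eq]
    ext x
    constructor
    · intro hx
      exact ⟨spl d x, hx, (spl d).symm_apply_apply x⟩
    · rintro ⟨p, hp, rfl⟩
      simpa using hp
  have h2 : Icc a b = convexHull ℝ ({a, b} : Set ℝ) := by
    rw [convexHull_pair, segment_eq_Icc hab]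
  rw [h1, h2, ← convexHull_prod]
  have h3 := ((spl d).symm.toLinearEquiv.toLinearMap).image_convexHull
    (({a, b} : Set ℝ) ×ˢ (V : Set (Sp d)))
  have h4 : ((spl d).symm.toLinearEquiv.toLinearMap) '' (({a, b} : Set ℝ) ×ˢ (V : Set (Sp d))) =
      (((({a, b} : Finset ℝ) ×ˢ V).image (fun p => (Fin.cons p.1 p.2 : Sp (d + 1))) :
        Finset (Sp (d + 1))) : Set (Sp (d + 1))) := by
    rw [Finset.coe_image, Finset.coe_product]
    simp only [Finset.coe_insert, Finset.coe_singleton]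
    rfl
  rw [← h4]
  exact h3

/-- the tiling of `ℝ^(d+1)` by the prisms of height one over the tiles of `T` -/
def stack (T : Set (Set (Sp d))) : Set (Set (Sp (d + 1))) :=
  {B | ∃ k : ℤ, ∃ A ∈ T, B = prism (Icc (k : ℝ) (k + 1)) A}

lemma mem_prism {I : Set ℝ} {A : Set (Sp d)} {x : Sp (d + 1)} :
    x ∈ prism I A ↔ x 0 ∈ I ∧ Fin.tail x ∈ A := Iff.rfl

lemma stack_tiling {T : Set (Set (Sp d))} (hT : IsPolytopeTiling T) :
    IsPolytopeTiling (stack T) := by
  refine ⟨?_, ?_, ?_, ?_⟩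
  · rintro B ⟨k, A, hA, rfl⟩
    obtain ⟨⟨V, hV⟩, y, hy⟩ := hT.polytope A hA
    refine ⟨?_, ?_⟩
    · rw [hV]
      exact prism_hull _ _ (by linarith) V
    · rw [interior_prism]
      refine ⟨Fin.cons ((k : ℝ) + 1 / 2) y, ?_, ?_⟩
      · rw [interior_Icc]
        simp only [Fin.cons_zero]
        constructor <;> linarith
      · rwa [Fin.tail_cons]
  · rw [Set.eq_univ_iff_forall]
    intro x
    have hx : Fin.tail x ∈ ⋃₀ T := by rw [hT.covers]; trivial
    obtain ⟨A, hA, hxA⟩ := hx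
    refine ⟨prism (Icc (⌊x 0⌋ : ℝ) (⌊x 0⌋ + 1)) A, ⟨_, A, hA, rfl⟩, ?_, hxA⟩
    exact ⟨Int.floor_le _, (Int.lt_floor_add_one _).le⟩
  · rintro B ⟨k, A, hA, rfl⟩ B' ⟨k', A', hA', rfl⟩ hne
    rw [Set.disjoint_left]
    intro y hy hy'
    rw [interior_prism, interior_Icc] at hy hy'
    apply hne
    have e1 : k = k' := by
      have h1 : (k : ℝ) < k' + 1 := by linarith [hy.1.1, hy'.1.2]
      have h2 : (k' : ℝ) < k + 1 := by linarith [hy'.1.1, hy.1.2]
      have h1' : k < k' + 1 := by exact_mod_cast h1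
      have h2' : k' < k + 1 := by exact_mod_cast h2
      omega
    have e2 : A = A' := by
      by_contra h
      exact Set.disjoint_left.1 (hT.disjoint A hA A' hA' h) hy.2 hy'.2
    rw [e1, e2]
  · intro B hB
    have hb1 : Bornology.IsBounded ((fun x : Sp (d + 1) => Fin.tail x) '' B) := by
      obtain ⟨R, hR⟩ := hB.subset_closedBall 0
      refine (Metric.isBounded_closedBall (x := (0 : Sp d)) (r := R)).subset ?_
      rintro _ ⟨x, hx, rfl⟩
      have hn : ‖x‖ ≤ R := by simpa using hR hx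
      have hR0 : 0 ≤ R := (norm_nonneg x).trans hn
      rw [mem_closedBall_zero_iff, pi_norm_le_iff_of_nonneg hR0]
      intro i
      exact (norm_le_pi_norm x i.succ).trans hn
    have hfin := hT.locallyFinite _ hb1
    obtain ⟨R, hR⟩ := hB.subset_closedBall 0
    obtain ⟨M, hM⟩ := exists_nat_gt R
    apply Set.Finite.subset (((Set.finite_Icc (-(M : ℤ) - 1) (M + 1)).prod hfin).image
      (fun p : ℤ × Set (Sp d) => prism (Icc (p.1 : ℝ) (p.1 + 1)) p.2))
    rintro _ ⟨⟨k, A, hA, rfl⟩, y, hy, hyB⟩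
    have hn : ‖y‖ ≤ R := by simpa using hR hyB
    have hc := (norm_le_pi_norm y 0).trans hn
    rw [Real.norm_eq_abs, abs_le] at hc
    refine ⟨(k, A), ⟨⟨?_, ?_⟩, hA, Fin.tail y, hy.2, ⟨y, hyB, rfl⟩⟩, rfl⟩
    · have : -(M : ℝ) - 1 ≤ k := by linarith [hc.1, hy.1.2]
      exact_mod_cast this
    · have : (k : ℝ) ≤ M + 1 := by linarith [hc.2, hy.1.1]
      exact_mod_cast this

lemma mem_minFace_iff {P : Set (Sp d)} (hP : Convex ℝ P) {x y : Sp d} (hx : x ∈ P) :
    y ∈ minFace P x ↔ y ∈ P ∧ ∃ ε > 0, ∀ δ : ℝ, 0 < δ → δ ≤ ε → x + δ • (x - y) ∈ P := by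
  constructor
  · rintro ⟨hy, z, hz, a, b, ha, hb, hab, rfl⟩
    refine ⟨hy, a / b, by positivity, fun δ h0 h1 => ?_⟩
    have h2 : 0 ≤ 1 - δ * (b / a) := by
      rw [sub_nonneg]
      calc δ * (b / a) ≤ a / b * (b / a) := by gcongr
        _ = 1 := by field_simp
    have h3 := hP hx hz h2 (show (0 : ℝ) ≤ δ * (b / a) by positivity) (by ring)
    convert h3 using 1
    have ea : b = 1 - a := by linarith
    have h4 : (1 - a) / a * a = 1 - a := by field_simp
    have key : ∀ t : ℝ, t = (1 - a) / a →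
        (a • y + (1 - a) • z) + δ • ((a • y + (1 - a) • z) - y) =
          (1 - δ * t) • (a • y + (1 - a) • z) + (δ * t) • z := by
      intro t ht
      have e : t * a = 1 - a := by rw [ht]; exact h4
      have e1 : (1 - a) = t * a := e.symm
      rw [e1]
      have e2 : (1 : ℝ) = t * a + a := by linarith
      have : (a • y + (t * a) • z) + δ • ((a • y + (t * a) • z) - y) -
          ((1 - δ * t) • (a • y + (t * a) • z) + (δ * t) • z) =
          (δ * (a - 1 + t * a)) • y + (δ * t * (a - 1 + t * a)) • z := by module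
      have h0' : a - 1 + t * a = 0 := by linarith
      rw [h0'] at this
      rw [← sub_eq_zero, this]
      simp
    rw [ea]
    exact key _ rfl
  · rintro ⟨hy, ε, hε, h⟩
    refine ⟨hy, x + ε • (x - y), h ε hε le_rfl, ε / (1 + ε), 1 / (1 + ε), by positivity,
      by positivity, by field_simp; ring, ?_⟩
    have e1 : (ε / (1 + ε)) • y + (1 / (1 + ε)) • (x + ε • (x - y)) =
        ((1 / (1 + ε)) * (1 + ε)) • x := by
      rw [smul_add, smul_smul, smul_sub]
      module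
    rw [e1, one_div_mul_cancel (by positivity), one_smul]

lemma tail_line (x y : Sp (d + 1)) (δ : ℝ) :
    Fin.tail (x + δ • (x - y)) = Fin.tail x + δ • (Fin.tail x - Fin.tail y) := rfl

lemma minFace_prism {A : Set (Sp d)} (hA : Convex ℝ A) {k : ℤ} {x : Sp (d + 1)}
    (hx : x ∈ prism (Icc (k : ℝ) (k + 1)) A) : minFace (prism (Icc (k : ℝ) (k + 1)) A) x =
      {y | y ∈ prism (Icc (k : ℝ) (k + 1)) A ∧ (x 0 = k → y 0 = k) ∧
        (x 0 = k + 1 → y 0 = k + 1) ∧ Fin.tail y ∈ minFace A (Fin.tail x)} := by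
  have hc : Convex ℝ (prism (Icc (k : ℝ) (k + 1)) A) := convex_prism (convex_Icc _ _) hA
  ext y
  rw [mem_minFace_iff hc hx]
  simp only [Set.mem_setOf_eq]
  rw [mem_minFace_iff hA hx.2]
  constructor
  · rintro ⟨hy, ε, hε, h⟩
    have h0 := (h ε hε le_rfl).1
    simp only [Pi.add_apply, Pi.smul_apply, Pi.sub_apply, smul_eq_mul] at h0
    refine ⟨hy, fun e => ?_, fun e => ?_, hy.2, ε, hε, fun δ h1 h2 => (h δ h1 h2).2⟩
    · have h1 := h0.1
      rw [e] at h1
      have h2 : 0 ≤ ε * ((k : ℝ) - y 0) := by linarith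
      have h3 : 0 ≤ (k : ℝ) - y 0 := by
        by_contra hcon
        push Not at hcon
        linarith [mul_neg_of_pos_of_neg hε hcon]
      linarith [hy.1.1]
    · have h1 := h0.2
      rw [e] at h1
      have h2 : ε * ((k : ℝ) + 1 - y 0) ≤ 0 := by linarith
      have h3 : (k : ℝ) + 1 - y 0 ≤ 0 := by
        by_contra hcon
        push Not at hcon
        linarith [mul_pos hε hcon]
      linarith [hy.1.2]
  · rintro ⟨hy, h1, h2, -, ε, hε, h⟩
    refine ⟨hy, ?_⟩
    obtain ⟨ε', hε', h'⟩ : ∃ ε' > 0, ∀ δ : ℝ, 0 < δ → δ ≤ ε' →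
        x 0 + δ * (x 0 - y 0) ∈ Icc (k : ℝ) (k + 1) := by
      by_cases c1 : x 0 = k
      · refine ⟨1, one_pos, fun δ _ _ => ?_⟩
        rw [h1 c1, c1]
        constructor <;> linarith
      by_cases c2 : x 0 = k + 1
      · refine ⟨1, one_pos, fun δ _ _ => ?_⟩
        rw [h2 c2, c2]
        constructor <;> linarith
      have l1 : 0 < x 0 - k := by
        have := lt_of_le_of_ne hx.1.1 (Ne.symm c1); linarith
      have l2 : 0 < k + 1 - x 0 := by
        have := lt_of_le_of_ne hx.1.2 c2; linarith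
      refine ⟨min (x 0 - k) (k + 1 - x 0), lt_min l1 l2, fun δ d0 d1 => ?_⟩
      have d2 := d1.trans (min_le_left _ _)
      have d3 := d1.trans (min_le_right _ _)
      have y1 := hy.1.1
      have y2 := hy.1.2
      have x1 := hx.1.1
      have x2 := hx.1.2
      constructor <;> nlinarith
    refine ⟨min ε ε', lt_min hε hε', fun δ d0 d1 => ⟨?_, ?_⟩⟩
    · exact h' δ d0 (d1.trans (min_le_right _ _))
    · exact h δ d0 (d1.trans (min_le_left _ _))

/-- the class of a real number in the tiling of the line by unit intervals -/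
def cls (t : ℝ) : Set ℝ := {s | ∀ k : ℤ, s ∈ Icc (k : ℝ) (k + 1) ↔ t ∈ Icc (k : ℝ) (k + 1)}

lemma eq_iff_two (s : ℝ) (k : ℤ) :
    s = k ↔ s ∈ Icc (k : ℝ) (k + 1) ∧ s ∈ Icc ((k - 1 : ℤ) : ℝ) ((k - 1 : ℤ) + 1) := by
  push_cast
  simp only [Set.mem_Icc]
  constructor
  · rintro rfl
    refine ⟨⟨le_rfl, by linarith⟩, by linarith, by linarith⟩
  · rintro ⟨⟨h1, -⟩, -, h2⟩
    linarith

lemma cls_int {s t : ℝ} (h : s ∈ cls t) (k : ℤ) : s = k ↔ t = k := by
  rw [eq_iff_two, eq_iff_two t, h k, h (k - 1)]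

lemma cls_half : cls (1 / 2) = Ioo 0 1 := by
  ext s
  constructor
  · intro h
    have h0 := (h 0).2 (by norm_num)
    have e0 : s ≠ 0 := by
      intro e
      have := (cls_int h 0).1 (by simpa using e)
      norm_num at this
    have e1 : s ≠ 1 := by
      intro e
      have := (cls_int h 1).1 (by simpa using e)
      norm_num at this
    simp only [Int.cast_zero, zero_add, Set.mem_Icc] at h0
    exact ⟨lt_of_le_of_ne h0.1 (Ne.symm e0), lt_of_le_of_ne h0.2 e1⟩
  · rintro ⟨h1, h2⟩ k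
    simp only [Set.mem_Icc]
    constructor
    · rintro ⟨a, b⟩
      have k1 : (k : ℝ) < 1 := by linarith
      have k2 : (-1 : ℝ) < k := by linarith
      have k1' : k < 1 := by exact_mod_cast k1
      have k2' : -1 < k := by exact_mod_cast k2
      have : k = 0 := by omega
      subst this
      norm_num
    · rintro ⟨a, b⟩
      have k1 : (k : ℝ) < 1 := by linarith
      have k2 : (-1 : ℝ) < k := by linarith
      have k1' : k < 1 := by exact_mod_cast k1
      have k2' : -1 < k := by exact_mod_cast k2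
      have : k = 0 := by omega
      subst this
      simp only [Int.cast_zero, zero_add]
      exact ⟨h1.le, h2.le⟩

lemma cls_zero : cls 0 = {0} := by
  ext s
  constructor
  · intro h
    have := (cls_int h 0).2 (by simp)
    simpa using this
  · rintro rfl k
    rfl

variable {T : Set (Set (Sp d))}

lemma sigma_stack (hT : IsPolytopeTiling T) {x y : Sp (d + 1)} :
    sigma (stack T) y = sigma (stack T) x ↔
      y 0 ∈ cls (x 0) ∧ sigma T (Fin.tail y) = sigma T (Fin.tail x) := by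
  rw [(stack_tiling hT).sigma_eq_iff, hT.sigma_eq_iff]
  constructor
  · intro h
    have hx : Fin.tail x ∈ ⋃₀ T := by rw [hT.covers]; trivial
    obtain ⟨A, hA, hxA⟩ := hx
    have hx0 : x 0 ∈ Icc (⌊x 0⌋ : ℝ) (⌊x 0⌋ + 1) := ⟨Int.floor_le _, (Int.lt_floor_add_one _).le⟩
    have hy := (h (prism (Icc (⌊x 0⌋ : ℝ) (⌊x 0⌋ + 1)) A) ⟨_, A, hA, rfl⟩).1.2 ⟨hx0, hxA⟩
    refine ⟨fun k => ?_, fun A' hA' => ⟨?_, fun hxA' => ?_⟩⟩
    · have h1 := (h (prism (Icc (k : ℝ) (k + 1)) A) ⟨_, A, hA, rfl⟩).1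
      rw [mem_prism, mem_prism, and_iff_left hy.2, and_iff_left hxA] at h1
      exact h1
    · have h1 := (h (prism (Icc (⌊x 0⌋ : ℝ) (⌊x 0⌋ + 1)) A') ⟨_, A', hA', rfl⟩).1
      rw [mem_prism, mem_prism, and_iff_right hy.1, and_iff_right hx0] at h1
      exact h1
    · have hB := h (prism (Icc (⌊x 0⌋ : ℝ) (⌊x 0⌋ + 1)) A') ⟨_, A', hA', rfl⟩
      have hxB : x ∈ prism (Icc (⌊x 0⌋ : ℝ) (⌊x 0⌋ + 1)) A' := ⟨hx0, hxA'⟩
      have hyB := hB.1.2 hxB
      have e := hB.2 hxB
      rw [minFace_prism (hT.convex hA') hxB, minFace_prism (hT.convex hA') hyB] at e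
      ext z
      constructor
      · intro hz
        have m : (Fin.cons (y 0) z : Sp (d + 1)) ∈
            {w | w ∈ prism (Icc (⌊x 0⌋ : ℝ) (⌊x 0⌋ + 1)) A' ∧ (y 0 = ⌊x 0⌋ → w 0 = ⌊x 0⌋) ∧
            (y 0 = ⌊x 0⌋ + 1 → w 0 = ⌊x 0⌋ + 1) ∧ Fin.tail w ∈ minFace A' (Fin.tail y)} := by
          refine ⟨⟨?_, ?_⟩, fun h' => h', fun h' => h', ?_⟩
          · simpa using hy.1
          · rw [Fin.tail_cons]; exact hz.1
          · rwa [Fin.tail_cons]
        rw [e] at m
        have := m.2.2.2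
        rwa [Fin.tail_cons] at this
      · intro hz
        have m : (Fin.cons (x 0) z : Sp (d + 1)) ∈
            {w | w ∈ prism (Icc (⌊x 0⌋ : ℝ) (⌊x 0⌋ + 1)) A' ∧ (x 0 = ⌊x 0⌋ → w 0 = ⌊x 0⌋) ∧
            (x 0 = ⌊x 0⌋ + 1 → w 0 = ⌊x 0⌋ + 1) ∧ Fin.tail w ∈ minFace A' (Fin.tail x)} := by
          refine ⟨⟨?_, ?_⟩, fun h' => h', fun h' => h', ?_⟩
          · simpa using hx0
          · rw [Fin.tail_cons]; exact hz.1
          · rwa [Fin.tail_cons]
        rw [← e] at m
        have := m.2.2.2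
        rwa [Fin.tail_cons] at this
  · rintro ⟨h0, h⟩ B ⟨k, A, hA, rfl⟩
    have m : y ∈ prism (Icc (k : ℝ) (k + 1)) A ↔ x ∈ prism (Icc (k : ℝ) (k + 1)) A := by
      rw [mem_prism, mem_prism, h0 k, (h A hA).1]
    refine ⟨m, fun hx => ?_⟩
    rw [minFace_prism (hT.convex hA) hx, minFace_prism (hT.convex hA) (m.2 hx),
      (h A hA).2 hx.2, cls_int h0 k]
    have e1 : y 0 = (k : ℝ) + 1 ↔ x 0 = (k : ℝ) + 1 := by
      have := cls_int h0 (k + 1)
      push_cast at this
      exact this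
    rw [e1]

lemma cell_prism_Icc (hT : IsPolytopeTiling T) {C : Set (Sp d)} (hC : C ∈ cells T) :
    prism (Icc 0 1) C ∈ cells (stack T) := by
  obtain ⟨x, rfl⟩ := hC
  refine ⟨Fin.cons (1 / 2) x, ?_⟩
  rw [← closure_Ioo (zero_ne_one), ← closure_prism]
  congr 1
  ext y
  rw [Set.mem_setOf_eq, sigma_stack hT, Fin.cons_zero, Fin.tail_cons, cls_half]
  rfl

lemma cell_prism_zero (hT : IsPolytopeTiling T) {C : Set (Sp d)} (hC : C ∈ cells T) :
    prism {0} C ∈ cells (stack T) := by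
  obtain ⟨x, rfl⟩ := hC
  refine ⟨Fin.cons 0 x, ?_⟩
  have h1 : ({0} : Set ℝ) = closure {0} := by rw [closure_singleton]
  rw [h1, ← closure_prism]
  congr 1
  ext y
  rw [Set.mem_setOf_eq, sigma_stack hT, Fin.cons_zero, Fin.tail_cons, cls_zero]
  rfl

end Pool.Agent.KS6_1.Dual
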