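import Mathlib
import Pool.Agent.KS6_1.Dual.Prism

set_option autoImplicit false

namespace Pool.Agent.KS6_1.Dual

open Module Set

variable {d : ℕ}

/-- `C` is a member of `P` with a strictly increasing chain of `n` members of `P` below it -/
def Depth (P : Set (Set (Sp d))) : ℕ → Set (Sp d) → Prop
  | 0, C => C ∈ P
  | n + 1, C => C ∈ P ∧ ∃ C', C' ⊆ C ∧ C' ≠ C ∧ Depth P n C'

lemma Depth.mem {P : Set (Set (Sp d))} : ∀ {n : ℕ} {C : Set (Sp d)}, Depth P n C → C ∈ P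
  | 0, _, h => h
  | _ + 1, _, h => h.1

/-- the obstruction: eleven members of `P`, which are the tiles `A, B, C, D`, the intersections
`AD, BD, AC, BC`, and three cells `N, S, U` below them -/
def Config (m : ℕ) (P : Set (Set (Sp d))) : Prop :=
  ∃ cA cB cC cD cAD cBD cAC cBC cN cS cU : Set (Sp d),
    ((Depth P (m + 3) cA ∧ Depth P (m + 3) cB ∧ Depth P (m + 3) cC ∧ Depth P (m + 3) cD) ∧
    (Depth P (m + 2) cAD ∧ Depth P (m + 2) cBD ∧ Depth P (m + 2) cAC ∧ Depth P (m + 2) cBC) ∧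
    (Depth P (m + 1) cN ∧ Depth P (m + 1) cS ∧ Depth P (m + 1) cU)) ∧
    ((cAD ⊆ cA ∧ cAD ⊆ cD ∧ cBD ⊆ cB ∧ cBD ⊆ cD ∧ cAC ⊆ cA ∧ cAC ⊆ cC ∧ cBC ⊆ cB ∧ cBC ⊆ cC) ∧
    (cN ⊆ cAD ∧ cS ⊆ cAD ∧ cN ⊆ cBD ∧ cS ⊆ cBD ∧ cN ⊆ cAC ∧ cU ⊆ cAC ∧ cN ⊆ cBC ∧ cU ⊆ cBC)) ∧
    ((cA ≠ cB ∧ cA ≠ cC ∧ cA ≠ cD ∧ cB ≠ cC ∧ cB ≠ cD) ∧
    (cAD ≠ cBD ∧ cAC ≠ cBC ∧ cAD ≠ cAC ∧ cN ≠ cS ∧ cN ≠ cU))

/-- the image of a configuration under an order embedding which increases the depth by `j` -/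
lemma Config.map {e m j : ℕ} {P : Set (Set (Sp d))} {Q : Set (Set (Sp e))}
    (f : Set (Sp d) → Set (Sp e)) (hf : ∀ C C' : Set (Sp d), f C ⊆ f C' ↔ C ⊆ C')
    (hd : ∀ n C, Depth P n C → Depth Q (n + j) (f C)) (h : Config m P) : Config (m + j) Q := by
  have hne : ∀ C C' : Set (Sp d), C ≠ C' → f C ≠ f C' := by
    intro C C' hn he
    exact hn (Set.Subset.antisymm ((hf _ _).1 he.subset) ((hf _ _).1 he.symm.subset))
  have hd' : ∀ n C, Depth P (m + n) C → Depth Q (m + j + n) (f C) := by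
    intro n C h'
    have := hd _ _ h'
    rwa [show m + n + j = m + j + n by ring] at this
  obtain ⟨cA, cB, cC, cD, cAD, cBD, cAC, cBC, cN, cS, cU, ⟨⟨a1, a2, a3, a4⟩, ⟨b1, b2, b3, b4⟩,
    c1, c2, c3⟩, ⟨⟨i1, i2, i3, i4, i5, i6, i7, i8⟩, j1, j2, j3, j4, j5, j6, j7, j8⟩,
    ⟨⟨n1, n2, n3, n4, n5⟩, m1, m2, m3, m4, m5⟩⟩ := h
  exact ⟨f cA, f cB, f cC, f cD, f cAD, f cBD, f cAC, f cBC, f cN, f cS, f cU,
    ⟨⟨hd' _ _ a1, hd' _ _ a2, hd' _ _ a3, hd' _ _ a4⟩,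
      ⟨hd' _ _ b1, hd' _ _ b2, hd' _ _ b3, hd' _ _ b4⟩, hd' _ _ c1, hd' _ _ c2, hd' _ _ c3⟩,
    ⟨⟨(hf _ _).2 i1, (hf _ _).2 i2, (hf _ _).2 i3, (hf _ _).2 i4, (hf _ _).2 i5, (hf _ _).2 i6,
      (hf _ _).2 i7, (hf _ _).2 i8⟩, (hf _ _).2 j1, (hf _ _).2 j2, (hf _ _).2 j3, (hf _ _).2 j4,
      (hf _ _).2 j5, (hf _ _).2 j6, (hf _ _).2 j7, (hf _ _).2 j8⟩,
    ⟨⟨hne _ _ n1, hne _ _ n2, hne _ _ n3, hne _ _ n4, hne _ _ n5⟩, hne _ _ m1, hne _ _ m2,
      hne _ _ m3, hne _ _ m4, hne _ _ m5⟩⟩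

/-- a family of sets is not reversible if it cannot be mapped injectively and inclusion reversingly
to the cells of a tiling of the space of the same dimension -/
def NotReversible (P : Set (Set (Sp d))) : Prop :=
  ∀ T' : Set (Set (Sp d)), IsPolytopeTiling T' → ∀ ψ : Set (Sp d) → Set (Sp d),
    (∀ C ∈ P, ψ C ∈ cells T') → Set.InjOn ψ P →
    (∀ C₁ ∈ P, ∀ C₂ ∈ P, C₁ ⊆ C₂ → ψ C₂ ⊆ ψ C₁) → False

lemma depth_dimn {P : Set (Set (Sp d))} {T' : Set (Set (Sp d))} (hT' : IsPolytopeTiling T')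
    {ψ : Set (Sp d) → Set (Sp d)} (h1 : ∀ C ∈ P, ψ C ∈ cells T') (h2 : Set.InjOn ψ P)
    (h3 : ∀ C₁ ∈ P, ∀ C₂ ∈ P, C₁ ⊆ C₂ → ψ C₂ ⊆ ψ C₁) :
    ∀ (n : ℕ) (C : Set (Sp d)), Depth P n C → dimn (ψ C) + n ≤ d := by
  intro n
  induction n with
  | zero => intro C _; simpa using dimn_le (ψ C)
  | succ n ih =>
    rintro C ⟨hC, C', hs, hne, hC'⟩
    have h4 := ih C' hC'
    have h5 : ψ C ≠ ψ C' := fun h => hne (h2 hC'.mem hC h.symm)
    have h6 := hT'.dimn_lt (h1 C hC) (h1 C' hC'.mem) (h3 C' hC'.mem C hC hs) h5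
    omega

lemma Config.notReversible {m : ℕ} {P : Set (Set (Sp (m + 3)))} (h : Config m P) :
    NotReversible P := by
  intro T' hT' ψ h1 h2 h3
  obtain ⟨cA, cB, cC, cD, cAD, cBD, cAC, cBC, cN, cS, cU, ⟨⟨a1, a2, a3, a4⟩, ⟨b1, b2, b3, b4⟩,
    c1, c2, c3⟩, ⟨⟨i1, i2, i3, i4, i5, i6, i7, i8⟩, j1, j2, j3, j4, j5, j6, j7, j8⟩,
    ⟨⟨n1, n2, n3, n4, n5⟩, m1, m2, m3, m4, m5⟩⟩ := h
  have hd := depth_dimn hT' h1 h2 h3
  have hne : ∀ {C C' : Set (Sp (m + 3))}, C ∈ P → C' ∈ P → C ≠ C' → ψ C ≠ ψ C' :=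
    fun hC hC' hn he => hn (h2 hC hC' he)
  have d1 := hd _ _ a1
  have d2 := hd _ _ a2
  have d3 := hd _ _ a3
  have d4 := hd _ _ a4
  have e1 := hd _ _ b1
  have e2 := hd _ _ b2
  have e3 := hd _ _ b3
  have e4 := hd _ _ b4
  have f1 := hd _ _ c1
  have f2 := hd _ _ c2
  have f3 := hd _ _ c3
  exact hT'.no_config (h1 _ a1.mem) (h1 _ a2.mem) (h1 _ a3.mem) (h1 _ a4.mem) (h1 _ b1.mem)
    (h1 _ b2.mem) (h1 _ b3.mem) (h1 _ b4.mem) (h1 _ c1.mem) (h1 _ c2.mem) (h1 _ c3.mem)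
    (by omega) (by omega) (by omega) (by omega) (by omega) (by omega) (by omega) (by omega)
    (by omega) (by omega) (by omega)
    (h3 _ b1.mem _ a1.mem i1) (h3 _ b1.mem _ a4.mem i2) (h3 _ b2.mem _ a2.mem i3)
    (h3 _ b2.mem _ a4.mem i4) (h3 _ b3.mem _ a1.mem i5) (h3 _ b3.mem _ a3.mem i6)
    (h3 _ b4.mem _ a2.mem i7) (h3 _ b4.mem _ a3.mem i8)
    (h3 _ c1.mem _ b1.mem j1) (h3 _ c2.mem _ b1.mem j2) (h3 _ c1.mem _ b2.mem j3)
    (h3 _ c2.mem _ b2.mem j4) (h3 _ c1.mem _ b3.mem j5) (h3 _ c3.mem _ b3.mem j6)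
    (h3 _ c1.mem _ b4.mem j7) (h3 _ c3.mem _ b4.mem j8)
    (hne a1.mem a2.mem n1) (hne a1.mem a3.mem n2) (hne a1.mem a4.mem n3) (hne a2.mem a3.mem n4)
    (hne a2.mem a4.mem n5) (hne b1.mem b2.mem m1) (hne b3.mem b4.mem m2) (hne b1.mem b3.mem m3)
    (hne c1.mem c2.mem m4) (hne c1.mem c3.mem m5)

/-- a non-reversible family of cells prevents duals -/
lemma NotReversible.not_dual {P T : Set (Set (Sp d))} (hP : NotReversible P)
    (hPT : P ⊆ cells T) {T' : Set (Set (Sp d))} (hT' : IsPolytopeTiling T')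
    (hcu : ∀ C ∈ P, C ≠ ∅ ∧ C ≠ Set.univ) : ¬ AreDual T T' := by
  rintro ⟨φ, hφ⟩
  classical
  have hbot : ∀ X : facePoset T, (X : Set (Sp d)) ≠ ∅ → (φ X : Set (Sp d)) ≠ Set.univ := by
    intro X hX hX'
    apply hX
    have h1 := (hφ X ⟨∅, Or.inr (by simp)⟩).2 (by rw [hX']; exact Set.subset_univ _)
    exact Set.subset_empty_iff.1 h1
  have htop : ∀ X : facePoset T, (X : Set (Sp d)) ≠ Set.univ →
      (φ X : Set (Sp d)) ≠ ∅ := by
    intro X hX hX'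
    apply hX
    have h1 := (hφ ⟨Set.univ, Or.inr (by simp)⟩ X).2 (by rw [hX']; exact Set.empty_subset _)
    exact Set.univ_subset_iff.1 h1
  have hcell : ∀ X : facePoset T, (X : Set (Sp d)) ≠ ∅ → (X : Set (Sp d)) ≠ Set.univ →
      (φ X : Set (Sp d)) ∈ cells T' := by
    intro X h1 h2
    rcases (φ X).2 with h | h
    · exact h
    · exfalso
      rcases h with h | h
      · exact htop X h2 h
      · exact hbot X h1 h
  set ψ : Set (Sp d) → Set (Sp d) := fun C =>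
    if h : C ∈ P then (φ ⟨C, Or.inl (hPT h)⟩ : Set (Sp d)) else C with hψ
  have e : ∀ C (h : C ∈ P), ψ C = (φ ⟨C, Or.inl (hPT h)⟩ : Set (Sp d)) := by
    intro C h
    rw [hψ]
    simp only [dif_pos h]
  refine hP T' hT' ψ ?_ ?_ ?_
  · intro C hC
    rw [e C hC]
    exact hcell _ (hcu C hC).1 (hcu C hC).2
  · intro C hC C' hC' h
    rw [e C hC, e C' hC'] at h
    have := φ.injective (Subtype.ext h)
    exact congrArg Subtype.val this
  · intro C hC C' hC' h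
    rw [e C hC, e C' hC']
    exact (hφ _ _).1 h

/-! ### The configuration in the tiling of three-space -/

/-- the thirteen cells used in the tiling by bricks -/
def P3 : Set (Set (Sp 3)) :=
  {cellBox ![-1, -1, -2] ![0, 0, 2], cellBox ![0, 0, -2] ![1, 1, 2],
    cellBox ![0, -1, 0] ![1, 0, 4], cellBox ![-1, 0, -3] ![0, 1, 1],
    cellBox ![-1, 0, -2] ![0, 0, 1], cellBox ![0, 0, -2] ![0, 1, 1],
    cellBox ![0, -1, 0] ![0, 0, 2], cellBox ![0, 0, 0] ![1, 0, 2],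
    cellBox ![0, 0, 0] ![0, 0, 1], cellBox ![0, 0, -2] ![0, 0, 0],
    cellBox ![0, 0, 1] ![0, 0, 2], cellBox ![0, 0, 0] ![0, 0, 0],
    cellBox ![0, 0, 1] ![0, 0, 1]}

lemma P3_finite : P3.Finite := by
  unfold P3
  exact Set.toFinite _

lemma P3_cells : P3 ⊆ cells bricks := by
  intro C hC
  simp only [P3, Set.mem_insert_iff, Set.mem_singleton_iff] at hC
  rcases hC with rfl | rfl | rfl | rfl | rfl | rfl | rfl | rfl | rfl | rfl | rfl | rfl | rfl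
  exacts [cellA, cellB, cellC, cellD, cellAD, cellBD, cellAC, cellBC, cellN, cellS, cellU, cellX,
    cellY]

lemma config3 : Config 0 P3 := by
  have hX : Depth P3 0 (cellBox ![0, 0, 0] ![0, 0, 0]) := by
    change _ ∈ P3; simp [P3]
  have hY : Depth P3 0 (cellBox ![0, 0, 1] ![0, 0, 1]) := by
    change _ ∈ P3; simp [P3]
  have step : ∀ (n : ℕ) (l u l' u' : Fin 3 → ℤ), Depth P3 n (cellBox l u) →
      cellBox l' u' ∈ P3 → (∀ c, l' c ≤ l c) → (∀ c, u c ≤ u' c) → (∀ c, l' c ≤ u' c) →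
      ¬ ((∀ c, l c ≤ l' c) ∧ (∀ c, u' c ≤ u c)) → Depth P3 (n + 1) (cellBox l' u') := by
    intro n l u l' u' h1 h2 h3 h4 h5 h6
    exact ⟨h2, _, cellBox_sub l u l' u' h3 h4, (cellBox_ne l' u' l u h5 h6).symm, h1⟩
  have hN := step 0 _ _ ![0, 0, 0] ![0, 0, 1] hX (by simp [P3]) (by decide) (by decide)
    (by decide) (by decide)
  have hS := step 0 _ _ ![0, 0, -2] ![0, 0, 0] hX (by simp [P3]) (by decide) (by decide)
    (by decide) (by decide)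
  have hU := step 0 _ _ ![0, 0, 1] ![0, 0, 2] hY (by simp [P3]) (by decide) (by decide)
    (by decide) (by decide)
  have hAD := step 1 _ _ ![-1, 0, -2] ![0, 0, 1] hN (by simp [P3]) (by decide) (by decide)
    (by decide) (by decide)
  have hBD := step 1 _ _ ![0, 0, -2] ![0, 1, 1] hN (by simp [P3]) (by decide) (by decide)
    (by decide) (by decide)
  have hAC := step 1 _ _ ![0, -1, 0] ![0, 0, 2] hN (by simp [P3]) (by decide) (by decide)
    (by decide) (by decide)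
  have hBC := step 1 _ _ ![0, 0, 0] ![1, 0, 2] hN (by simp [P3]) (by decide) (by decide)
    (by decide) (by decide)
  have hA := step 2 _ _ ![-1, -1, -2] ![0, 0, 2] hAD (by simp [P3]) (by decide) (by decide)
    (by decide) (by decide)
  have hB := step 2 _ _ ![0, 0, -2] ![1, 1, 2] hBD (by simp [P3]) (by decide) (by decide)
    (by decide) (by decide)
  have hC := step 2 _ _ ![0, -1, 0] ![1, 0, 4] hAC (by simp [P3]) (by decide) (by decide)
    (by decide) (by decide)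
  have hD := step 2 _ _ ![-1, 0, -3] ![0, 1, 1] hAD (by simp [P3]) (by decide) (by decide)
    (by decide) (by decide)
  have sub : ∀ (l u l' u' : Fin 3 → ℤ), (∀ c, l' c ≤ l c) → (∀ c, u c ≤ u' c) →
      cellBox l u ⊆ cellBox l' u' := fun l u l' u' h1 h2 => cellBox_sub l u l' u' h1 h2
  have ne : ∀ (l u l' u' : Fin 3 → ℤ), (∀ c, l c ≤ u c) →
      ¬ ((∀ c, l' c ≤ l c) ∧ (∀ c, u c ≤ u' c)) → cellBox l u ≠ cellBox l' u' :=
    fun l u l' u' h1 h2 => cellBox_ne l u l' u' h1 h2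
  refine ⟨_, _, _, _, _, _, _, _, _, _, _, ⟨⟨hA, hB, hC, hD⟩, ⟨hAD, hBD, hAC, hBC⟩, hN, hS, hU⟩,
    ⟨⟨?_, ?_, ?_, ?_, ?_, ?_, ?_, ?_⟩, ?_, ?_, ?_, ?_, ?_, ?_, ?_, ?_⟩,
    ⟨⟨?_, ?_, ?_, ?_, ?_⟩, ?_, ?_, ?_, ?_, ?_⟩⟩
  all_goals first
    | (apply sub <;> decide)
    | (apply ne <;> decide)

/-! ### The configuration in higher dimension -/

/-- the cells of the configuration in the next dimension -/
def nextP (P : Set (Set (Sp d))) : Set (Set (Sp (d + 1))) :=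
  (fun C => prism (Icc 0 1) C) '' P ∪ (fun C => prism {0} C) '' P

lemma prism_subset {I : Set ℝ} (hI : I.Nonempty) (C C' : Set (Sp d)) :
    prism I C ⊆ prism I C' ↔ C ⊆ C' := by
  constructor
  · intro h z hz
    obtain ⟨t, ht⟩ := hI
    have : (Fin.cons t z : Sp (d + 1)) ∈ prism I C := by
      rw [mem_prism, Fin.cons_zero, Fin.tail_cons]; exact ⟨ht, hz⟩
    have := (h this).2
    rwa [Fin.tail_cons] at this
  · exact fun h x hx => ⟨hx.1, h hx.2⟩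

lemma depth_next {P : Set (Set (Sp d))} (hne : ∀ C ∈ P, C.Nonempty) :
    ∀ (n : ℕ) (C : Set (Sp d)), Depth P n C → Depth (nextP P) (n + 1) (prism (Icc 0 1) C) := by
  have hI : (Icc (0 : ℝ) 1).Nonempty := ⟨0, by simp⟩
  intro n
  induction n with
  | zero =>
    intro C hC
    refine ⟨Or.inl ⟨C, hC, rfl⟩, prism {0} C, ?_, ?_, Or.inr ⟨C, hC, rfl⟩⟩
    · rintro x ⟨h1, h2⟩
      rw [Set.mem_singleton_iff] at h1
      exact ⟨by rw [h1]; simp, h2⟩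
    · intro h
      obtain ⟨z, hz⟩ := hne C hC
      have : (Fin.cons 1 z : Sp (d + 1)) ∈ prism (Icc 0 1) C := by
        rw [mem_prism, Fin.cons_zero, Fin.tail_cons]; exact ⟨by simp, hz⟩
      rw [← h] at this
      have := this.1
      rw [Fin.cons_zero, Set.mem_singleton_iff] at this
      norm_num at this
  | succ n ih =>
    rintro C ⟨hC, C', hs, hn, hC'⟩
    refine ⟨Or.inl ⟨C, hC, rfl⟩, prism (Icc 0 1) C', (prism_subset hI _ _).2 hs, ?_, ih C' hC'⟩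
    intro h
    apply hn
    exact Set.Subset.antisymm ((prism_subset hI _ _).1 h.subset)
      ((prism_subset hI _ _).1 h.symm.subset)

/-- all tiles are translates of a box -/
def ByTranslates (T : Set (Set (Sp d))) : Prop :=
  ∃ b : Sp d, (∀ i, 0 < b i) ∧ ∀ A ∈ T, ∃ v : Sp d, A = Icc v (v + b)

lemma prism_box (k : ℝ) (v b : Sp d) : prism (Icc k (k + 1)) (Icc v (v + b)) =
    Icc (Fin.cons k v : Sp (d + 1)) ((Fin.cons k v : Sp (d + 1)) + (Fin.cons 1 b : Sp (d + 1))) := by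
  ext x
  rw [mem_prism, Set.mem_Icc, Set.mem_Icc, Set.mem_Icc, Pi.le_def, Pi.le_def, Pi.le_def,
    Pi.le_def, Fin.forall_fin_succ, Fin.forall_fin_succ]
  simp only [Pi.add_apply, Fin.cons_zero, Fin.cons_succ]
  constructor
  · rintro ⟨⟨h1, h2⟩, h3, h4⟩
    exact ⟨⟨h1, h3⟩, h2, h4⟩
  · rintro ⟨⟨h1, h3⟩, h2, h4⟩
    exact ⟨⟨h1, h2⟩, h3, h4⟩

lemma stack_byTranslates {T : Set (Set (Sp d))} (h : ByTranslates T) : ByTranslates (stack T) := by
  obtain ⟨b, hb, h⟩ := h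
  refine ⟨Fin.cons 1 b, fun i => ?_, ?_⟩
  · refine Fin.cases ?_ (fun i => ?_) i
    · simp
    · simpa using hb i
  · rintro B ⟨k, A, hA, rfl⟩
    obtain ⟨v, rfl⟩ := h A hA
    exact ⟨_, prism_box k v b⟩

lemma bricks_byTranslates : ByTranslates bricks := by
  refine ⟨![1, 1, 4], ?_, ?_⟩
  · intro i; fin_cases i <;> simp
  · rintro A ⟨t, rfl⟩
    refine ⟨lo t, ?_⟩
    unfold brick
    congr 1
    funext i
    fin_cases i <;> simp [lo, hi]

/-- the tilings by boxes without dual in all dimensions `m + 3` -/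
theorem box_tilings (m : ℕ) : ∃ T P : Set (Set (Sp (m + 3))), IsPolytopeTiling T ∧
    ByTranslates T ∧ P.Finite ∧ P ⊆ cells T ∧ Config m P := by
  induction m with
  | zero => exact ⟨bricks, P3, bricks_tiling, bricks_byTranslates, P3_finite, P3_cells, config3⟩
  | succ m ih =>
    obtain ⟨T, P, h1, h2, h3, h4, h5⟩ := ih
    refine ⟨stack T, nextP P, stack_tiling h1, stack_byTranslates h2,
      (h3.image _).union (h3.image _), ?_, ?_⟩
    · rintro _ (⟨C, hC, rfl⟩ | ⟨C, hC, rfl⟩)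
      · exact cell_prism_Icc h1 (h4 hC)
      · exact cell_prism_zero h1 (h4 hC)
    · exact Config.map (fun C => prism (Icc 0 1) C)
        (fun C C' => prism_subset ⟨0, by simp⟩ C C')
        (depth_next (fun C hC => cell_nonempty (h4 hC))) h5

end Pool.Agent.KS6_1.Dual
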