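import Mathlib
import Pool.Agent.KS6_1.Dual.Config

set_option autoImplicit false

namespace Pool.Agent.KS6_1.Dual

open Module Set

variable {d : ℕ}

/-- a polytope intersected with a half-space is a polytope -/
lemma hull_halfspace (V : Finset (Sp d)) (f : Sp d →ₗ[ℝ] ℝ) (c : ℝ) : ∃ W : Finset (Sp d),
    convexHull ℝ (V : Set (Sp d)) ∩ {x | f x ≤ c} = convexHull ℝ (W : Set (Sp d)) := by
  classical
  set Vm := V.filter (fun v => f v ≤ c) with hVm
  set Vp := V.filter (fun v => ¬ f v ≤ c) with hVp
  set α : Sp d → ℝ := fun v => c - f v with hα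
  set β : Sp d → ℝ := fun v => f v - c with hβ
  set q : Sp d × Sp d → Sp d := fun p =>
    (β p.2 / (α p.1 + β p.2)) • p.1 + (α p.1 / (α p.1 + β p.2)) • p.2 with hq
  have hα0 : ∀ v ∈ Vm, 0 ≤ α v := by
    intro v hv
    have := (Finset.mem_filter.1 hv).2
    simp only [hα]; linarith
  have hβ0 : ∀ v ∈ Vp, 0 < β v := by
    intro v hv
    have := (Finset.mem_filter.1 hv).2
    simp only [hβ]; push Not at this; linarith
  refine ⟨Vm ∪ (Vm ×ˢ Vp).image q, ?_⟩
  apply Set.Subset.antisymm
  · rintro x ⟨hx, hxc⟩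
    rw [Finset.mem_convexHull'] at hx
    obtain ⟨w, hw0, hw1, hwx⟩ := hx
    have s1 : ∑ v ∈ Vm, w v + ∑ v ∈ Vp, w v = 1 := by
      rw [hVm, hVp, Finset.sum_filter_add_sum_filter_not]; exact hw1
    have s2 : ∑ v ∈ Vm, w v • v + ∑ v ∈ Vp, w v • v = x := by
      rw [hVm, hVp, Finset.sum_filter_add_sum_filter_not]; exact hwx
    have w0m : ∀ v ∈ Vm, 0 ≤ w v := fun v hv => hw0 v (Finset.mem_filter.1 hv).1
    have w0p : ∀ v ∈ Vp, 0 ≤ w v := fun v hv => hw0 v (Finset.mem_filter.1 hv).1
    set a := ∑ v ∈ Vm, w v * α v with ha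
    set b := ∑ v ∈ Vp, w v * β v with hb
    have ha0 : 0 ≤ a := Finset.sum_nonneg (fun v hv => mul_nonneg (w0m v hv) (hα0 v hv))
    have hb0 : 0 ≤ b := Finset.sum_nonneg (fun v hv => mul_nonneg (w0p v hv) (hβ0 v hv).le)
    have hfx : f x = ∑ v ∈ Vm, w v * f v + ∑ v ∈ Vp, w v * f v := by
      rw [← s2, map_add, map_sum, map_sum]
      simp
    have hab : b ≤ a := by
      have e1 : a = c * ∑ v ∈ Vm, w v - ∑ v ∈ Vm, w v * f v := by
        rw [ha, Finset.mul_sum, ← Finset.sum_sub_distrib]
        exact Finset.sum_congr rfl (fun v _ => by simp only [hα]; ring)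
      have e2 : b = ∑ v ∈ Vp, w v * f v - c * ∑ v ∈ Vp, w v := by
        rw [hb, Finset.mul_sum, ← Finset.sum_sub_distrib]
        exact Finset.sum_congr rfl (fun v _ => by simp only [hβ]; ring)
      have e3 : f x ≤ c := hxc
      have e4 : c * ∑ v ∈ Vm, w v + c * ∑ v ∈ Vp, w v = c := by
        rw [← mul_add, s1, mul_one]
      rw [e1, e2]
      linarith
    have hK : Convex ℝ (convexHull ℝ ((Vm ∪ (Vm ×ˢ Vp).image q : Finset (Sp d)) :
      Set (Sp d))) := convex_convexHull ℝ _
    by_cases hbz : b = 0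
    · have hz : ∀ v ∈ Vp, w v = 0 := by
        intro v hv
        have := (Finset.sum_eq_zero_iff_of_nonneg
          (fun v hv => mul_nonneg (w0p v hv) (hβ0 v hv).le)).1 hbz v hv
        rcases mul_eq_zero.1 this with h | h
        · exact h
        · exact absurd h (hβ0 v hv).ne'
      rw [Finset.sum_eq_zero hz, add_zero] at s1
      have s3 : ∑ v ∈ Vp, w v • v = 0 :=
        Finset.sum_eq_zero (fun v hv => by rw [hz v hv, zero_smul])
      rw [s3, add_zero] at s2
      rw [← s2]
      refine hK.sum_mem w0m s1 (fun v hv => subset_convexHull ℝ _ ?_)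
      rw [Finset.mem_coe, Finset.mem_union]
      exact Or.inl hv
    · have hbp : 0 < b := lt_of_le_of_ne hb0 (Ne.symm hbz)
      have hap : 0 < a := hbp.trans_le hab
      have key1 : ∑ p ∈ Vm ×ˢ Vp, w p.1 * w p.2 * (α p.1 + β p.2) / a =
          (∑ v ∈ Vp, w v) + b / a * ∑ v ∈ Vm, w v := by
        rw [Finset.sum_product]
        have : ∀ u ∈ Vm, ∑ v ∈ Vp, w u * w v * (α u + β v) / a =
            (w u * α u) / a * ∑ v ∈ Vp, w v + w u / a * b := by
          intro u _
          rw [hb, Finset.mul_sum, Finset.mul_sum, ← Finset.sum_add_distrib]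
          exact Finset.sum_congr rfl (fun v _ => by ring)
        rw [Finset.sum_congr rfl this, Finset.sum_add_distrib, ← Finset.sum_mul,
          ← Finset.sum_mul, ← Finset.sum_div, ← Finset.sum_div, ← ha, div_self hap.ne', one_mul]
        ring
      have key2 : ∑ p ∈ Vm ×ˢ Vp, (w p.1 * w p.2 * (α p.1 + β p.2) / a) • q p =
          (∑ v ∈ Vp, w v • v) + (b / a) • ∑ v ∈ Vm, w v • v := by
        rw [Finset.sum_product]
        have : ∀ u ∈ Vm, ∑ v ∈ Vp, (w u * w v * (α u + β v) / a) • q (u, v) =
            ((w u * α u) / a) • ∑ v ∈ Vp, w v • v + (b / a) • (w u • u) := by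
          intro u hu
          have e5 : (b / a) • (w u • u) = ∑ v ∈ Vp, (w v * β v / a * w u) • u := by
            rw [← Finset.sum_smul, ← Finset.sum_mul, ← Finset.sum_div, ← hb, smul_smul]
          rw [e5, Finset.smul_sum, ← Finset.sum_add_distrib]
          refine Finset.sum_congr rfl (fun v hv => ?_)
          have hpos : 0 < α u + β v := add_pos_of_nonneg_of_pos (hα0 u hu) (hβ0 v hv)
          simp only [hq]
          rw [smul_add, smul_smul, smul_smul, smul_smul]
          have c1 : w u * w v * (α u + β v) / a * (β v / (α u + β v)) = w v * β v / a * w u := by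
            field_simp
          have c2 : w u * w v * (α u + β v) / a * (α u / (α u + β v)) = w u * α u / a * w v := by
            field_simp
          rw [c1, c2, add_comm]
        rw [Finset.sum_congr rfl this, Finset.sum_add_distrib, ← Finset.sum_smul,
          ← Finset.smul_sum, ← Finset.sum_div, ← ha, div_self hap.ne', one_smul]
      have hx2 : x = ∑ i ∈ Vm.disjSum (Vm ×ˢ Vp),
          (Sum.elim (fun v => w v * (1 - b / a))
            (fun p : Sp d × Sp d => w p.1 * w p.2 * (α p.1 + β p.2) / a) i) •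
            (Sum.elim (fun v => v) q i) := by
        rw [Finset.sum_disjSum]
        simp only [Sum.elim_inl, Sum.elim_inr]
        rw [key2, ← s2]
        have : ∑ v ∈ Vm, (w v * (1 - b / a)) • v = (1 - b / a) • ∑ v ∈ Vm, w v • v := by
          rw [Finset.smul_sum]
          exact Finset.sum_congr rfl (fun v _ => by rw [smul_smul, mul_comm])
        rw [this]
        module
      rw [hx2]
      refine hK.sum_mem ?_ ?_ ?_
      · intro i hi
        rcases Finset.mem_disjSum.1 hi with ⟨v, hv, rfl⟩ | ⟨p, hp, rfl⟩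
        · simp only [Sum.elim_inl]
          refine mul_nonneg (w0m v hv) ?_
          rw [sub_nonneg, div_le_one hap]; exact hab
        · simp only [Sum.elim_inr]
          have hp' := Finset.mem_product.1 hp
          have h1 := w0m _ hp'.1
          have h2 := w0p _ hp'.2
          have h3 := hα0 _ hp'.1
          have h4 := (hβ0 _ hp'.2).le
          positivity
      · rw [Finset.sum_disjSum]
        simp only [Sum.elim_inl, Sum.elim_inr]
        rw [key1, ← Finset.sum_mul]
        linear_combination s1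
      · intro i hi
        rcases Finset.mem_disjSum.1 hi with ⟨v, hv, rfl⟩ | ⟨p, hp, rfl⟩
        · apply subset_convexHull
          rw [Finset.mem_coe, Finset.mem_union]
          exact Or.inl hv
        · apply subset_convexHull
          rw [Finset.mem_coe, Finset.mem_union]
          exact Or.inr (Finset.mem_image.2 ⟨p, hp, rfl⟩)
  · apply convexHull_min
    · intro x hx
      rw [Finset.mem_coe, Finset.mem_union] at hx
      rcases hx with hx | hx
      · obtain ⟨h1, h2⟩ := Finset.mem_filter.1 hx
        exact ⟨subset_convexHull ℝ _ h1, h2⟩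
      · obtain ⟨p, hp, rfl⟩ := Finset.mem_image.1 hx
        have hp' := Finset.mem_product.1 hp
        have h3 := hα0 _ hp'.1
        have h4 := hβ0 _ hp'.2
        have hpos : 0 < α p.1 + β p.2 := by positivity
        refine ⟨?_, ?_⟩
        · apply convex_convexHull ℝ (V : Set (Sp d))
            (subset_convexHull ℝ _ (Finset.mem_filter.1 hp'.1).1)
            (subset_convexHull ℝ _ (Finset.mem_filter.1 hp'.2).1)
          · positivity
          · positivity
          · rw [← add_div, add_comm, div_self hpos.ne']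
        · change f (q p) ≤ c
          apply le_of_eq
          simp only [hq, map_add, map_smul, smul_eq_mul]
          have e1 : f p.1 = c - α p.1 := by simp only [hα]; ring
          have e2 : f p.2 = c + β p.2 := by simp only [hβ]; ring
          rw [e1, e2]
          field_simp
          ring
    · exact (convex_convexHull ℝ _).inter (convex_halfSpace_le f.isLinear c)

/-- a polytope intersected with a box is a polytope -/
lemma hull_box (V : Finset (Sp d)) (v w : Sp d) : ∃ W : Finset (Sp d),
    convexHull ℝ (V : Set (Sp d)) ∩ Icc v w = convexHull ℝ (W : Set (Sp d)) := by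
  classical
  have key : ∀ s : Finset (Fin d), ∃ W : Finset (Sp d),
      convexHull ℝ (V : Set (Sp d)) ∩ {x | ∀ i ∈ s, v i ≤ x i ∧ x i ≤ w i} =
        convexHull ℝ (W : Set (Sp d)) := by
    intro s
    induction s using Finset.induction_on with
    | empty => exact ⟨V, by simp⟩
    | insert i s _ ih =>
      obtain ⟨W, hW⟩ := ih
      obtain ⟨W1, hW1⟩ := hull_halfspace W (LinearMap.proj i) (w i)
      obtain ⟨W2, hW2⟩ := hull_halfspace W1 (-LinearMap.proj i) (-v i)
      refine ⟨W2, ?_⟩
      rw [← hW2, ← hW1, ← hW]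
      ext x
      simp only [Set.mem_inter_iff, Finset.mem_insert, forall_eq_or_imp,
        LinearMap.proj_apply, LinearMap.neg_apply, neg_le_neg_iff]
      constructor
      · rintro ⟨h1, ⟨h2, h3⟩, h4⟩
        exact ⟨⟨⟨h1, h4⟩, h3⟩, h2⟩
      · rintro ⟨⟨⟨h1, h4⟩, h3⟩, h2⟩
        exact ⟨h1, ⟨h2, h3⟩, h4⟩
  obtain ⟨W, hW⟩ := key Finset.univ
  refine ⟨W, ?_⟩
  rw [← hW]
  ext x
  simp only [Set.mem_inter_iff, Set.mem_Icc, Pi.le_def, Finset.mem_univ, true_imp_iff]
  constructor
  · rintro ⟨h1, h2, h3⟩
    exact ⟨h1, fun i => ⟨h2 i, h3 i⟩⟩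
  · rintro ⟨h1, h2⟩
    exact ⟨h1, fun i => (h2 i).1, fun i => (h2 i).2⟩

end Pool.Agent.KS6_1.Dual
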