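import Mathlib
import Pool.Agent.KS6_1.Dual.Half

set_option autoImplicit false

namespace Pool.Agent.KS6_1.Dual

open Module Set

variable {d : ℕ}

/-! ### Homotheties -/

/-- the homothety `y ↦ p + s y` -/
noncomputable def hom (p : Sp d) (s : ℝ) (hs : s ≠ 0) : Sp d ≃ₜ Sp d :=
  (Homeomorph.smulOfNeZero s hs).trans (Homeomorph.addLeft p)

lemma hom_apply (p : Sp d) (s : ℝ) (hs : s ≠ 0) (y : Sp d) : hom p s hs y = p + s • y := rfl

lemma hom_hull (p : Sp d) (s : ℝ) (hs : s ≠ 0) (V : Finset (Sp d)) : ∃ W : Finset (Sp d),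
    hom p s hs '' convexHull ℝ (V : Set (Sp d)) = convexHull ℝ (W : Set (Sp d)) := by
  classical
  refine ⟨V.image (hom p s hs), ?_⟩
  have h := AffineMap.image_convexHull
    ((s • (LinearMap.id : Sp d →ₗ[ℝ] Sp d)).toAffineMap + AffineMap.const ℝ (Sp d) p)
    (V : Set (Sp d))
  have e : (⇑((s • (LinearMap.id : Sp d →ₗ[ℝ] Sp d)).toAffineMap + AffineMap.const ℝ (Sp d) p) :
      Sp d → Sp d) = hom p s hs := by
    funext y
    rw [hom_apply, add_comm]
    rfl
  rw [e] at h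
  rw [h, Finset.coe_image]

lemma hom_segment (p : Sp d) (s : ℝ) (hs : s ≠ 0) (x y z : Sp d) :
    hom p s hs x ∈ openSegment ℝ (hom p s hs y) (hom p s hs z) ↔ x ∈ openSegment ℝ y z := by
  constructor
  · rintro ⟨a, b, ha, hb, hab, e⟩
    refine ⟨a, b, ha, hb, hab, ?_⟩
    rw [hom_apply, hom_apply, hom_apply] at e
    have e2 : s • (a • y + b • z) = s • x := by
      have e1 : a • (p + s • y) + b • (p + s • z) = (a + b) • p + s • (a • y + b • z) := by module
      rw [e1, hab, one_smul] at e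
      exact add_left_cancel e
    exact smul_right_injective _ hs e2
  · rintro ⟨a, b, ha, hb, hab, rfl⟩
    refine ⟨a, b, ha, hb, hab, ?_⟩
    rw [hom_apply, hom_apply, hom_apply]
    have e1 : a • (p + s • y) + b • (p + s • z) = (a + b) • p + s • (a • y + b • z) := by module
    rw [e1, hab, one_smul]

lemma hom_minFace (p : Sp d) (s : ℝ) (hs : s ≠ 0) (A : Set (Sp d)) (x : Sp d) :
    minFace (hom p s hs '' A) (hom p s hs x) = hom p s hs '' minFace A x := by
  ext y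
  constructor
  · rintro ⟨⟨y, hy, rfl⟩, _, ⟨z, hz, rfl⟩, h⟩
    exact ⟨y, ⟨hy, z, hz, (hom_segment p s hs x y z).1 h⟩, rfl⟩
  · rintro ⟨y, ⟨hy, z, hz, h⟩, rfl⟩
    exact ⟨⟨y, hy, rfl⟩, _, ⟨z, hz, rfl⟩, (hom_segment p s hs x y z).2 h⟩

/-- the image of a tiling -/
def homT (p : Sp d) (s : ℝ) (hs : s ≠ 0) (T : Set (Set (Sp d))) : Set (Set (Sp d)) :=
  (fun A => hom p s hs '' A) '' T

lemma homT_tiling (p : Sp d) (s : ℝ) (hs : s ≠ 0) {T : Set (Set (Sp d))}
    (hT : IsPolytopeTiling T) : IsPolytopeTiling (homT p s hs T) := by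
  refine ⟨?_, ?_, ?_, ?_⟩
  · rintro _ ⟨A, hA, rfl⟩
    obtain ⟨⟨V, rfl⟩, hne⟩ := hT.polytope A hA
    refine ⟨hom_hull p s hs V, ?_⟩
    simp only
    rw [← (hom p s hs).image_interior]
    exact hne.image _
  · rw [Set.eq_univ_iff_forall]
    intro x
    have hx : (hom p s hs).symm x ∈ ⋃₀ T := by rw [hT.covers]; trivial
    obtain ⟨A, hA, hxA⟩ := hx
    exact ⟨_, ⟨A, hA, rfl⟩, _, hxA, (hom p s hs).apply_symm_apply x⟩
  · rintro _ ⟨A, hA, rfl⟩ _ ⟨B, hB, rfl⟩ hne
    simp only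
    rw [← (hom p s hs).image_interior, ← (hom p s hs).image_interior,
      Set.disjoint_image_iff (hom p s hs).injective]
    exact hT.disjoint A hA B hB (fun h => hne (by rw [h]))
  · intro B hB
    have h1 : Bornology.IsBounded ((fun y : Sp d => s⁻¹ • (y - p)) '' B) := by
      obtain ⟨R, hR⟩ := hB.subset_closedBall 0
      refine (Metric.isBounded_closedBall (x := (0 : Sp d)) (r := |s⁻¹| * (R + ‖p‖))).subset ?_
      rintro _ ⟨x, hx, rfl⟩
      have hn : ‖x‖ ≤ R := by simpa using hR hx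
      rw [mem_closedBall_zero_iff, norm_smul, Real.norm_eq_abs]
      gcongr
      exact (norm_sub_le _ _).trans (by linarith)
    refine ((hT.locallyFinite _ h1).image (fun A => hom p s hs '' A)).subset ?_
    rintro _ ⟨⟨A, hA, rfl⟩, _, ⟨y, hy, rfl⟩, hyB⟩
    refine ⟨A, ⟨hA, y, hy, _, hyB, ?_⟩, rfl⟩
    simp only [hom_apply, add_sub_cancel_left, smul_smul, inv_mul_cancel₀ hs, one_smul]

lemma sigma_homT (p : Sp d) (s : ℝ) (hs : s ≠ 0) {T : Set (Set (Sp d))}
    (hT : IsPolytopeTiling T) (x y : Sp d) :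
    sigma (homT p s hs T) (hom p s hs y) = sigma (homT p s hs T) (hom p s hs x) ↔
      sigma T y = sigma T x := by
  rw [(homT_tiling p s hs hT).sigma_eq_iff, hT.sigma_eq_iff]
  have hinj := (hom p s hs).injective
  constructor
  · intro h A hA
    have h1 := h _ ⟨A, hA, rfl⟩
    simp only [hinj.mem_set_image, hom_minFace] at h1
    exact ⟨h1.1, fun hx => hinj.image_injective (h1.2 hx)⟩
  · rintro h _ ⟨A, hA, rfl⟩
    simp only [hinj.mem_set_image, hom_minFace]
    exact ⟨(h A hA).1, fun hx => by rw [(h A hA).2 hx]⟩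

lemma class_homT (p : Sp d) (s : ℝ) (hs : s ≠ 0) {T : Set (Set (Sp d))}
    (hT : IsPolytopeTiling T) (x : Sp d) :
    closure {y | sigma (homT p s hs T) y = sigma (homT p s hs T) (hom p s hs x)} =
      hom p s hs '' closure {y | sigma T y = sigma T x} := by
  rw [(hom p s hs).image_closure]
  congr 1
  ext z
  constructor
  · intro hz
    refine ⟨(hom p s hs).symm z, ?_, (hom p s hs).apply_symm_apply z⟩
    rw [← (hom p s hs).apply_symm_apply z] at hz
    exact (sigma_homT p s hs hT _ _).1 hz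
  · rintro ⟨y, hy, rfl⟩
    exact (sigma_homT p s hs hT _ _).2 hy

/-! ### Cutting a tile -/

/-- the tiling obtained by cutting the tile `A` of `T₀` along the tiling `B` -/
def cut (B T₀ : Set (Set (Sp d))) (A : Set (Sp d)) : Set (Set (Sp d)) :=
  {C | C ∈ T₀ ∧ C ≠ A} ∪ {C | (∃ b ∈ B, C = b ∩ A) ∧ (interior C).Nonempty}

variable {B T₀ : Set (Set (Sp d))} {A : Set (Sp d)}

lemma IsPolytopeTiling.bounded (hT : IsPolytopeTiling T₀) (hA : A ∈ T₀) :
    Bornology.IsBounded A := by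
  obtain ⟨V, rfl⟩ := (hT.polytope A hA).1
  exact (V.finite_toSet.isCompact_convexHull ℝ).isBounded

lemma cut_tiling (hB : IsPolytopeTiling B) (hbox : ∀ b ∈ B, ∃ v w : Sp d, b = Icc v w)
    (hT : IsPolytopeTiling T₀) (hA : A ∈ T₀) : IsPolytopeTiling (cut B T₀ A) := by
  refine ⟨?_, ?_, ?_, ?_⟩
  · rintro C (⟨hC, hne⟩ | ⟨⟨b, hb, rfl⟩, hne⟩)
    · exact hT.polytope C hC
    · refine ⟨?_, hne⟩
      obtain ⟨v, w, rfl⟩ := hbox b hb
      obtain ⟨V, hV⟩ := (hT.polytope A hA).1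
      rw [hV, Set.inter_comm]
      exact hull_box V v w
  · rw [Set.eq_univ_iff_forall]
    intro x
    have hx : x ∈ ⋃₀ T₀ := by rw [hT.covers]; trivial
    obtain ⟨C, hC, hxC⟩ := hx
    by_cases hCA : C = A
    · subst hCA
      by_contra hcon
      -- tiles of `B` close to `x` which meet the interior of `C`
      have hfin := hB.locallyFinite (Metric.ball x 1) Metric.isBounded_ball
      set S := {b | b ∈ B ∧ (b ∩ Metric.ball x 1).Nonempty ∧ (interior (b ∩ C)).Nonempty} with hS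
      have hSfin : S.Finite := hfin.subset (fun b hb => ⟨hb.1, hb.2.1⟩)
      have hcl : IsClosed (⋃ b ∈ S, b) := hSfin.isClosed_biUnion (fun b hb => hB.closed hb.1)
      have hxS : x ∉ ⋃ b ∈ S, b := by
        simp only [Set.mem_iUnion, not_exists]
        intro b hb hxb
        exact hcon ⟨b ∩ C, Or.inr ⟨⟨b, hb.1, rfl⟩, hb.2.2⟩, hxb, hxC⟩
      have hopen : (⋃ b ∈ S, b)ᶜ ∩ Metric.ball x 1 ∈ nhds x :=
        Filter.inter_mem (hcl.isOpen_compl.mem_nhds hxS) (Metric.ball_mem_nhds x one_pos)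
      have hxcl : x ∈ closure (interior C) := by
        rw [(hT.convex hC).closure_interior_eq_closure_of_nonempty_interior (hT.polytope C hC).2]
        exact subset_closure hxC
      obtain ⟨w, hw1, hw2⟩ := mem_closure_iff_nhds.1 hxcl _ hopen
      have hwB : w ∈ ⋃₀ B := by rw [hB.covers]; trivial
      obtain ⟨b, hb, hwb⟩ := hwB
      by_cases hbi : (interior (b ∩ C)).Nonempty
      · exact hw1.1 (Set.mem_biUnion (show b ∈ S from ⟨hb, ⟨w, hwb, hw1.2⟩, hbi⟩) hwb)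
      · rw [interior_inter, Set.not_nonempty_iff_eq_empty, ← Set.disjoint_iff_inter_eq_empty] at hbi
        exact Set.disjoint_left.1 (hB.disjoint_open hb isOpen_interior hbi) hwb hw2
    · exact ⟨C, Or.inl ⟨hC, hCA⟩, hxC⟩
  · have hcross : ∀ C ∈ T₀, C ≠ A → ∀ b : Set (Sp d), Disjoint (interior C) (interior (b ∩ A)) := by
      intro C hC hne b
      refine (hT.disjoint C hC A hA hne).mono_right ?_
      rw [interior_inter]
      exact Set.inter_subset_right
    rintro C (⟨hC, hne⟩ | ⟨⟨b, hb, rfl⟩, hne⟩) C' (⟨hC', hne'⟩ | ⟨⟨b', hb', rfl⟩, hne'⟩) hCC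
    · exact hT.disjoint C hC C' hC' hCC
    · exact hcross C hC hne b'
    · exact (hcross C' hC' hne' b).symm
    · have hbb : b ≠ b' := fun h => hCC (by rw [h])
      refine (hB.disjoint b hb b' hb' hbb).mono ?_ ?_
      · rw [interior_inter]; exact Set.inter_subset_left
      · rw [interior_inter]; exact Set.inter_subset_left
  · intro K hK
    refine ((hT.locallyFinite K hK).union ((hB.locallyFinite K hK).image (fun b => b ∩ A))).subset ?_
    rintro C ⟨⟨hC, hne⟩ | ⟨⟨b, hb, rfl⟩, hne⟩, y, hy, hyK⟩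
    · exact Or.inl ⟨hC, y, hy, hyK⟩
    · exact Or.inr ⟨b, ⟨hb, y, hy.1, hyK⟩, rfl⟩

lemma cut_finite (hB : IsPolytopeTiling B) (hT : IsPolytopeTiling T₀) (hA : A ∈ T₀) :
    (cut B T₀ A \ T₀).Finite := by
  refine ((hB.locallyFinite A (hT.bounded hA)).image (fun b => b ∩ A)).subset ?_
  rintro C ⟨⟨hC, hne⟩ | ⟨⟨b, hb, rfl⟩, hne⟩, hCT⟩
  · exact absurd hC hCT
  · obtain ⟨y, hy⟩ := hne
    have := interior_subset hy
    exact ⟨b, ⟨hb, y, this⟩, rfl⟩

lemma cut_subset : ∀ C ∈ cut B T₀ A \ T₀, C ⊆ A := by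
  rintro C ⟨⟨hC, hne⟩ | ⟨⟨b, hb, rfl⟩, hne⟩, hCT⟩
  · exact absurd hC hCT
  · exact Set.inter_subset_right

/-- all tiles of `B` containing `y` lie in the interior of `A` -/
def Good (B : Set (Set (Sp d))) (A : Set (Sp d)) (y : Sp d) : Prop :=
  ∀ b ∈ B, y ∈ b → b ⊆ interior A

lemma sigma_cut (hB : IsPolytopeTiling B) (hbox : ∀ b ∈ B, ∃ v w : Sp d, b = Icc v w)
    (hT : IsPolytopeTiling T₀) (hA : A ∈ T₀) {y : Sp d} (hy : Good B A y) :
    sigma (cut B T₀ A) y = sigma B y := by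
  have hc := cut_tiling hB hbox hT hA
  have hyA : y ∈ interior A := by
    have hyB : y ∈ ⋃₀ B := by rw [hB.covers]; trivial
    obtain ⟨b, hb, hyb⟩ := hyB
    exact hy b hb hyb hyb
  ext ⟨C, F⟩
  rw [hc.mem_sigma, hB.mem_sigma]
  constructor
  · rintro ⟨⟨hC, hne⟩ | ⟨⟨b, hb, rfl⟩, hne⟩, hyC, hF⟩
    · exfalso
      exact Set.disjoint_left.1 (hT.disjoint_open hC isOpen_interior
        (hT.disjoint C hC A hA hne)) hyC hyA
    · have h1 : b ∩ A = b :=
        Set.inter_eq_left.2 ((hy b hb hyC.1).trans interior_subset)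
      rw [h1] at hF ⊢
      exact ⟨hb, hyC.1, hF⟩
  · rintro ⟨hC, hyC, hF⟩
    have h1 : C ∩ A = C := Set.inter_eq_left.2 ((hy C hC hyC).trans interior_subset)
    exact ⟨Or.inr ⟨⟨C, hC, h1.symm⟩, (hB.polytope C hC).2⟩, hyC, hF⟩

lemma class_cut (hB : IsPolytopeTiling B) (hbox : ∀ b ∈ B, ∃ v w : Sp d, b = Icc v w)
    (hT : IsPolytopeTiling T₀) (hA : A ∈ T₀) {x : Sp d}
    (hx : ∀ b ∈ B, x ∈ b → ∀ y ∈ b, Good B A y) :
    closure {y | sigma B y = sigma B x} ∈ cells (cut B T₀ A) := by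
  refine ⟨x, ?_⟩
  congr 1
  ext y
  have hc := cut_tiling hB hbox hT hA
  have hxB : x ∈ ⋃₀ B := by rw [hB.covers]; trivial
  obtain ⟨b, hb, hxb⟩ := hxB
  have gx : Good B A x := hx b hb hxb x hxb
  have ex := sigma_cut hB hbox hT hA gx
  have hm : (b, minFace b x) ∈ sigma B x := hB.mem_sigma.2 ⟨hb, hxb, rfl⟩
  constructor
  · intro h
    change sigma B y = sigma B x at h
    change sigma (cut B T₀ A) y = sigma (cut B T₀ A) x
    rw [← h] at hm
    have hy := (hB.mem_sigma.1 hm).2.1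
    rw [sigma_cut hB hbox hT hA (hx b hb hxb y hy), ex, h]
  · intro h
    change sigma (cut B T₀ A) y = sigma (cut B T₀ A) x at h
    change sigma B y = sigma B x
    rw [← ex, ← h] at hm
    have hy := (hc.mem_sigma.1 hm).2.1
    rw [sigma_cut hB hbox hT hA (hx b hb hxb y hy), ex] at h
    exact h

/-- cells of a box tiling can be inserted in any tile of any tiling -/
lemma insert_cells (hB : IsPolytopeTiling B) (hbox : ∀ b ∈ B, ∃ v w : Sp d, b = Icc v w)
    {P : Set (Set (Sp d))} (hP : P.Finite) (hPB : P ⊆ cells B)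
    (hT : IsPolytopeTiling T₀) (hA : A ∈ T₀) :
    ∃ (p : Sp d) (s : ℝ) (hs : s ≠ 0), ∃ T : Set (Set (Sp d)), IsPolytopeTiling T ∧
      T₀ \ {A} ⊆ T ∧ (T \ T₀).Finite ∧ (∀ C ∈ T \ T₀, C ⊆ A) ∧
      ∀ C ∈ P, hom p s hs '' C ∈ cells T := by
  classical
  have hch : ∀ C : Set (Sp d), ∃ x, C ∈ P → C = closure {y | sigma B y = sigma B x} := by
    intro C
    by_cases h : C ∈ P
    · obtain ⟨x, hx⟩ := hPB h
      exact ⟨x, fun _ => hx⟩
    · exact ⟨0, fun h' => absurd h' h⟩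
  choose r hr using hch
  have hbU : ∀ S : Set (Set (Sp d)), S.Finite → S ⊆ B → Bornology.IsBounded (⋃₀ S) := by
    intro S hS hSB
    exact (Bornology.isBounded_sUnion hS).2 (fun b hb => hB.bounded (hSB hb))
  have h1 := hB.locallyFinite (r '' P) (hP.image r).isBounded
  set U := ⋃₀ {b | b ∈ B ∧ (b ∩ r '' P).Nonempty} with hU
  have hUb : Bornology.IsBounded U := hbU _ h1 (fun b hb => hb.1)
  have h2 := hB.locallyFinite U hUb
  set K := ⋃₀ {b | b ∈ B ∧ (b ∩ U).Nonempty} with hK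
  have hKb : Bornology.IsBounded K := hbU _ h2 (fun b hb => hb.1)
  obtain ⟨R, hR⟩ := hKb.subset_closedBall 0
  obtain ⟨p, hp⟩ := (hT.polytope A hA).2
  obtain ⟨ε, hε, hball⟩ := Metric.isOpen_iff.1 isOpen_interior p hp
  set s : ℝ := ε / (|R| + 1) with hs
  have hs0 : 0 < s := by positivity
  have hKA : ∀ y ∈ K, hom p s hs0.ne' y ∈ interior A := by
    intro y hy
    apply hball
    have hn : ‖y‖ ≤ R := by simpa using hR hy
    rw [Metric.mem_ball, hom_apply, dist_eq_norm, add_sub_cancel_left, norm_smul,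
      Real.norm_of_nonneg hs0.le]
    calc s * ‖y‖ ≤ s * |R| := by gcongr; exact hn.trans (le_abs_self R)
      _ < s * (|R| + 1) := by gcongr; linarith
      _ = ε := by rw [hs]; field_simp
  have hB' := homT_tiling p s hs0.ne' hB
  have hbox' : ∀ b ∈ homT p s hs0.ne' B, ∃ v w : Sp d, b = Icc v w := by
    rintro _ ⟨b, hb, rfl⟩
    obtain ⟨v, w, rfl⟩ := hbox b hb
    refine ⟨p + s • v, p + s • w, ?_⟩
    ext y
    simp only [Set.mem_image, Set.mem_Icc, hom_apply]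
    constructor
    · rintro ⟨z, ⟨h1, h2⟩, rfl⟩
      refine ⟨fun i => ?_, fun i => ?_⟩
      · have := h1 i
        simp only [Pi.add_apply, Pi.smul_apply, smul_eq_mul]
        gcongr
      · have := h2 i
        simp only [Pi.add_apply, Pi.smul_apply, smul_eq_mul]
        gcongr
    · rintro ⟨h1, h2⟩
      refine ⟨s⁻¹ • (y - p), ⟨fun i => ?_, fun i => ?_⟩, ?_⟩
      · have := h1 i
        simp only [Pi.add_apply, Pi.smul_apply, smul_eq_mul, Pi.sub_apply] at this ⊢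
        rw [inv_mul_eq_div, le_div_iff₀ hs0]
        linarith
      · have := h2 i
        simp only [Pi.add_apply, Pi.smul_apply, smul_eq_mul, Pi.sub_apply] at this ⊢
        rw [inv_mul_eq_div, div_le_iff₀ hs0]
        linarith
      · rw [smul_smul, mul_inv_cancel₀ hs0.ne', one_smul]
        abel
  refine ⟨p, s, hs0.ne', cut (homT p s hs0.ne' B) T₀ A, cut_tiling hB' hbox' hT hA, ?_,
    cut_finite hB' hT hA, cut_subset, ?_⟩
  · rintro C ⟨hC, hne⟩
    exact Or.inl ⟨hC, hne⟩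
  · intro C hC
    have e := hr C hC
    have e2 := class_homT p s hs0.ne' hB (r C)
    rw [← e] at e2
    rw [← e2]
    apply class_cut hB' hbox' hT hA
    rintro _ ⟨b, hb, rfl⟩ hxb _ ⟨y, hy, rfl⟩ _ ⟨b', hb', rfl⟩ hyb'
    have hinj := (hom p s hs0.ne').injective
    simp only [hinj.mem_set_image] at hxb hyb'
    rintro _ ⟨z, hz, rfl⟩
    apply hKA
    have hyU : y ∈ U := ⟨b, ⟨hb, r C, hxb, C, hC, rfl⟩, hy⟩
    exact ⟨b', ⟨hb', y, hyb', hyU⟩, hz⟩

lemma ByTranslates.box {B : Set (Set (Sp d))} (h : ByTranslates B) :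
    ∀ b ∈ B, ∃ v w : Sp d, b = Icc v w := by
  obtain ⟨c, _, h⟩ := h
  intro b hb
  obtain ⟨v, hv⟩ := h b hb
  exact ⟨v, _, hv⟩

lemma depth_image {P : Set (Set (Sp d))} (f : Set (Sp d) → Set (Sp d))
    (hf : ∀ C C' : Set (Sp d), f C ⊆ f C' ↔ C ⊆ C') :
    ∀ (n : ℕ) (C : Set (Sp d)), Depth P n C → Depth (f '' P) n (f C) := by
  intro n
  induction n with
  | zero => intro C hC; exact ⟨C, hC, rfl⟩
  | succ n ih =>
    rintro C ⟨hC, C', hs, hn, hC'⟩
    refine ⟨⟨C, hC, rfl⟩, f C', (hf _ _).2 hs, fun h => hn ?_, ih C' hC'⟩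
    exact Set.Subset.antisymm ((hf _ _).1 h.subset) ((hf _ _).1 h.symm.subset)

/-- **Surgery.** Any tile of any tiling of `ℝ^(m+3)` can be subdivided such that the configuration
appears. -/
theorem surgery (m : ℕ) {T₀ : Set (Set (Sp (m + 3)))} (hT : IsPolytopeTiling T₀)
    {A : Set (Sp (m + 3))} (hA : A ∈ T₀) :
    ∃ T P : Set (Set (Sp (m + 3))), IsPolytopeTiling T ∧ T₀ \ {A} ⊆ T ∧ (T \ T₀).Finite ∧
      (∀ C ∈ T \ T₀, C ⊆ A) ∧ P.Finite ∧ P ⊆ cells T ∧ Config m P := by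
  obtain ⟨B, P, hB, hbt, hP, hPB, hc⟩ := box_tilings m
  obtain ⟨p, s, hs, T, h1, h2, h3, h4, h5⟩ := insert_cells hB hbt.box hP hPB hT hA
  refine ⟨T, (fun C => hom p s hs '' C) '' P, h1, h2, h3, h4, hP.image _, ?_, ?_⟩
  · rintro _ ⟨C, hC, rfl⟩
    exact h5 C hC
  · have hf : ∀ C C' : Set (Sp (m + 3)), hom p s hs '' C ⊆ hom p s hs '' C' ↔ C ⊆ C' :=
      fun C C' => Set.image_subset_image_iff (hom p s hs).injective
    exact Config.map (j := 0) (fun C => hom p s hs '' C) hf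
      (fun n C h => depth_image (fun C => hom p s hs '' C) hf n C h) hc

end Pool.Agent.KS6_1.Dual
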